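import Pool.Agent.helper56.CY.F5b

/-! The triangle relation. -/

namespace Pool.Agent.CY
open Finset CT

theorem F5_inj {V : Type} {L : List V} {e : V × Fin 4 → V × Fin 4} {u v w : V}
    {i j k : Fin 4 → Fin 4} (he : ∀ d, e (e d) = d) (huv : u ≠ v) (huw : u ≠ w) (hvw : v ≠ w)
    (hu : u ∉ L) (hv : v ∉ L) (hw : w ∉ L)
    (hi : Function.Injective i) (hj : Function.Injective j) (hk : Function.Injective k)
    (u2 : (e (u, i 2)).1 ∈ L) (u3 : (e (u, i 3)).1 ∈ L) (v2 : (e (v, j 2)).1 ∈ L)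
    (v3 : (e (v, j 3)).1 ∈ L) (w2 : (e (w, k 2)).1 ∈ L) (w3 : (e (w, k 3)).1 ∈ L) :
    Function.Injective (![(u, i 0), (u, i 1), (u, i 2), (u, i 3), (v, j 0), (v, j 1), (v, j 2),
      (v, j 3), (w, k 0), (w, k 1), (w, k 2), (w, k 3), e (u, i 2), e (u, i 3), e (v, j 2),
      e (v, j 3), e (w, k 2), e (w, k 3)] : Fin 18 → V × Fin 4) := by
  have A : ∀ X : V × Fin 4, (e X).1 ∈ L → ∀ y n, y ∉ L → (e X = (y, n)) = False := by
    intro X hX y n hy
    apply eq_false
    intro h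
    rw [h] at hX
    exact hy hX
  have B : ∀ X : V × Fin 4, (e X).1 ∈ L → ∀ y n, y ∉ L → ((y, n) = e X) = False := by
    intro X hX y n hy
    apply eq_false
    intro h
    rw [← h] at hX
    exact hy hX
  have C : ∀ X Y, (e X = e Y) = (X = Y) := fun X Y => propext (inj_of he)
  have huv' := huv.symm
  have huw' := huw.symm
  have hvw' := hvw.symm
  intro a b hab
  fin_cases a <;> fin_cases b <;> first
    | rfl
    | (exfalso
       revert hab
       simp [A _ u2, A _ u3, A _ v2, A _ v3, A _ w2, A _ w3, B _ u2, B _ u3, B _ v2, B _ v3,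
        B _ w2, B _ w3, C, hi.eq_iff, hj.eq_iff, hk.eq_iff, hu, hv, hw, huv, huw, hvw, huv',
        huw', hvw'])


theorem F5 : F5_stmt := by
  intro V _ _ L e u v w i j k hT hL
  obtain ⟨nd, act, hi, hj, hk, uv, vw, wu, u2, u3, v2, v3, w2, w3⟩ := hT
  obtain ⟨he, hA⟩ := act
  simp only [List.nodup_cons, List.mem_cons, not_or] at nd
  obtain ⟨⟨huv, huw, hu⟩, ⟨hvw, hv⟩, hw, hLn⟩ := nd
  have hι := F5_inj he huv huw hvw hu hv hw hi hj hk u2 u3 v2 v3 w2 w3
  generalize hιd : (![(u, i 0), (u, i 1), (u, i 2), (u, i 3), (v, j 0), (v, j 1), (v, j 2),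
      (v, j 3), (w, k 0), (w, k 1), (w, k 2), (w, k 3), e (u, i 2), e (u, i 3), e (v, j 2),
      e (v, j 3), e (w, k 2), e (w, k 3)] : Fin 18 → V × Fin 4) = ι at hι
  have i0 : ι 0 = (u, i 0) := by rw [← hιd]; rfl
  have i1 : ι 1 = (u, i 1) := by rw [← hιd]; rfl
  have i2 : ι 2 = (u, i 2) := by rw [← hιd]; rfl
  have i3 : ι 3 = (u, i 3) := by rw [← hιd]; rfl
  have i4 : ι 4 = (v, j 0) := by rw [← hιd]; rfl
  have i5 : ι 5 = (v, j 1) := by rw [← hιd]; rfl
  have i6 : ι 6 = (v, j 2) := by rw [← hιd]; rfl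
  have i7 : ι 7 = (v, j 3) := by rw [← hιd]; rfl
  have i8 : ι 8 = (w, k 0) := by rw [← hιd]; rfl
  have i9 : ι 9 = (w, k 1) := by rw [← hιd]; rfl
  have i10 : ι 10 = (w, k 2) := by rw [← hιd]; rfl
  have i11 : ι 11 = (w, k 3) := by rw [← hιd]; rfl
  have i12 : ι 12 = e (u, i 2) := by rw [← hιd]; rfl
  have i13 : ι 13 = e (u, i 3) := by rw [← hιd]; rfl
  have i14 : ι 14 = e (v, j 2) := by rw [← hιd]; rfl
  have i15 : ι 15 = e (v, j 3) := by rw [← hιd]; rfl
  have i16 : ι 16 = e (w, k 2) := by rw [← hιd]; rfl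
  have i17 : ι 17 = e (w, k 3) := by rw [← hιd]; rfl
  clear hιd
  have hm : ∀ a, e (ι a) = ι (F5_m a) := by
    intro a
    fin_cases a
    · show e (ι 0) = ι 5
      rw [i0, i5, uv]
    · show e (ι 1) = ι 8
      rw [i1, i8, ← wu, he]
    · show e (ι 2) = ι 12
      rw [i2, i12]
    · show e (ι 3) = ι 13
      rw [i3, i13]
    · show e (ι 4) = ι 9
      rw [i4, i9, vw]
    · show e (ι 5) = ι 0
      rw [i0, i5, ← uv, he]
    · show e (ι 6) = ι 14
      rw [i6, i14]
    · show e (ι 7) = ι 15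
      rw [i7, i15]
    · show e (ι 8) = ι 1
      rw [i8, i1, wu]
    · show e (ι 9) = ι 4
      rw [i9, i4, ← vw, he]
    · show e (ι 10) = ι 16
      rw [i10, i16]
    · show e (ι 11) = ι 17
      rw [i11, i17]
    · show e (ι 12) = ι 2
      rw [i12, i2, he]
    · show e (ι 13) = ι 3
      rw [i13, i3, he]
    · show e (ι 14) = ι 6
      rw [i14, i6, he]
    · show e (ι 15) = ι 7
      rw [i15, i7, he]
    · show e (ι 16) = ι 10
      rw [i16, i10, he]
    · show e (ι 17) = ι 11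
      rw [i17, i11, he]
  have hself : F5_lft ι e F5_m = e := F5_lft_self ι hι e F5_m hm
  have hmem : ∀ (X : V × Fin 4) (S : List V), X ∈ dts S.toFinset ↔ X.1 ∈ S := by
    intro X S
    unfold dts
    rw [mem_product]
    simp
  have hIn : ∀ a : Fin 18, ι a ∈ dts L.toFinset ↔ 12 ≤ a.val := by
    intro a
    rw [hmem]
    fin_cases a
    · show (ι 0).1 ∈ L ↔ _
      rw [i0]; simp [hu]
    · show (ι 1).1 ∈ L ↔ _
      rw [i1]; simp [hu]
    · show (ι 2).1 ∈ L ↔ _
      rw [i2]; simp [hu]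
    · show (ι 3).1 ∈ L ↔ _
      rw [i3]; simp [hu]
    · show (ι 4).1 ∈ L ↔ _
      rw [i4]; simp [hv]
    · show (ι 5).1 ∈ L ↔ _
      rw [i5]; simp [hv]
    · show (ι 6).1 ∈ L ↔ _
      rw [i6]; simp [hv]
    · show (ι 7).1 ∈ L ↔ _
      rw [i7]; simp [hv]
    · show (ι 8).1 ∈ L ↔ _
      rw [i8]; simp [hw]
    · show (ι 9).1 ∈ L ↔ _
      rw [i9]; simp [hw]
    · show (ι 10).1 ∈ L ↔ _
      rw [i10]; simp [hw]
    · show (ι 11).1 ∈ L ↔ _
      rw [i11]; simp [hw]
    · show (ι 12).1 ∈ L ↔ _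
      rw [i12]; simp [u2]
    · show (ι 13).1 ∈ L ↔ _
      rw [i13]; simp [u3]
    · show (ι 14).1 ∈ L ↔ _
      rw [i14]; simp [v2]
    · show (ι 15).1 ∈ L ↔ _
      rw [i15]; simp [v3]
    · show (ι 16).1 ∈ L ↔ _
      rw [i16]; simp [w2]
    · show (ι 17).1 ∈ L ↔ _
      rw [i17]; simp [w3]
  have si : Function.Surjective i := Finite.surjective_of_injective hi
  have sj : Function.Surjective j := Finite.surjective_of_injective hj
  have sk : Function.Surjective k := Finite.surjective_of_injective hk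
  have hout : ∀ z : V × Fin 4, (∀ a, ι a ≠ z) → (e z ≠ z ↔ z ∈ dts L.toFinset) := by
    rintro ⟨y, n⟩ hz
    rw [hA, hmem, hmem]
    simp only [List.mem_cons]
    constructor
    · rintro (rfl | rfl | rfl | h)
      · exfalso
        obtain ⟨s, rfl⟩ := si n
        fin_cases s
        · exact hz 0 i0
        · exact hz 1 i1
        · exact hz 2 i2
        · exact hz 3 i3
      · exfalso
        obtain ⟨s, rfl⟩ := sj n
        fin_cases s
        · exact hz 4 i4
        · exact hz 5 i5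
        · exact hz 6 i6
        · exact hz 7 i7
      · exfalso
        obtain ⟨s, rfl⟩ := sk n
        fin_cases s
        · exact hz 8 i8
        · exact hz 9 i9
        · exact hz 10 i10
        · exact hz 11 i11
      · exact h
    · intro h
      exact Or.inr (Or.inr (Or.inr h))
  -- activity
  have actc : Act (dts L.toFinset) (F5_lft ι e F5_c0) := by
    refine F5_lft_act ι hι e he F5_m hm F5_c0 (by decide +kernel) _ ?_ hout
    intro a
    rw [hIn]
    revert a
    decide +kernel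
  have acto : Act (dts L.toFinset ∪ {ι 2, ι 3, ι 6, ι 7, ι 10, ι 11}) (F5_lft ι e F5_o) := by
    refine F5_lft_act ι hι e he F5_m hm F5_o (by decide +kernel) _ ?_ ?_
    · intro a
      simp only [mem_union, mem_insert, mem_singleton, hIn, hι.eq_iff]
      revert a
      decide +kernel
    · intro z hz
      rw [hout z hz]
      simp only [mem_union, mem_insert, mem_singleton]
      constructor
      · intro h; exact Or.inl h
      · rintro (h | h | h | h | h | h | h)
        · exact h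
        · exact absurd h.symm (hz _)
        · exact absurd h.symm (hz _)
        · exact absurd h.symm (hz _)
        · exact absurd h.symm (hz _)
        · exact absurd h.symm (hz _)
        · exact absurd h.symm (hz _)
  have h16 : (16 : ℤ) ∣ Z (-4) L (F5_lft ι e F5_c0) := fJC1 V L _ hLn hL actc
  -- the fifteen term relation
  have hnd : [ι 2, ι 3, ι 6, ι 7, ι 10, ι 11].Nodup := by
    have : [ι 2, ι 3, ι 6, ι 7, ι 10, ι 11] = List.map ι [2, 3, 6, 7, 10, 11] := rfl
    rw [this]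
    exact List.Nodup.map hι (by decide)
  have hlegs : ∀ z ∈ [ι 2, ι 3, ι 6, ι 7, ι 10, ι 11], z.1 ∉ L := by
    intro z hz
    simp only [List.mem_cons, List.not_mem_nil, or_false] at hz
    rcases hz with rfl | rfl | rfl | rfl | rfl | rfl
    · rw [i2]; exact hu
    · rw [i3]; exact hu
    · rw [i6]; exact hv
    · rw [i7]; exact hv
    · rw [i10]; exact hw
    · rw [i11]; exact hw
  have rel := D1 V L (F5_lft ι e F5_o) (ι 2) (ι 3) (ι 6) (ι 7) (ι 10) (ι 11) hLn hnd hlegs acto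
  simp only [F5_T3 ι hι e he F5_m hm] at rel
  rw [F5_t0.1, F5_t0.2, F5_t1.1, F5_t1.2, F5_t2.1, F5_t2.2, F5_t3.1, F5_t3.2, F5_t4.1, F5_t4.2,
    F5_t5.1, F5_t5.2, F5_t6.1, F5_t6.2, F5_t7.1, F5_t7.2, F5_t8.1, F5_t8.2, F5_t9.1, F5_t9.2,
    F5_t10.1, F5_t10.2, F5_t11.1, F5_t11.2, F5_t12.1, F5_t12.2, F5_t13.1, F5_t13.2, F5_t14.1,
    F5_t14.2] at rel
  simp only [pow_zero, one_mul] at rel
  -- the expansions
  have ex : ∀ (y : V) (q : Fin 4 → Fin 4) (_ : Function.Injective q) (a0 a1 a2 a3 : Fin 18)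
      (_ : ι a0 = (y, q 0)) (_ : ι a1 = (y, q 1)) (_ : ι a2 = (y, q 2)) (_ : ι a3 = (y, q 3))
      (K : List V),
      F5_Ex (fun m => Z (-4) (y :: K) (F5_lft ι e m)) (fun m => Z (-4) K (F5_lft ι e m))
        a0 a1 a2 a3 := by
    intro y q hq a0 a1 a2 a3 h0 h1 h2 h3 K m hmm g0 g1 g2 g3
    have := F5_ex ι hι e he F5_m hm (-4) K m y q hq a0 a1 a2 a3 h0 h1 h2 h3 hmm g0 g1 g2 g3
    unfold F5_W at this
    exact this
  have key := F5_alg (fun m => Z (-4) (u :: v :: w :: L) (F5_lft ι e m))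
    (fun m => Z (-4) (v :: w :: L) (F5_lft ι e m)) (fun m => Z (-4) (w :: L) (F5_lft ι e m))
    (fun m => Z (-4) L (F5_lft ι e m)) (fun m => Z (-4) (v :: L) (F5_lft ι e m))
    (fun m => Z (-4) (u :: L) (F5_lft ι e m))
    (ex u i hi 0 1 2 3 i0 i1 i2 i3 _) (ex v j hj 4 5 6 7 i4 i5 i6 i7 _)
    (ex w k hk 8 9 10 11 i8 i9 i10 i11 _) (ex v j hj 4 5 6 7 i4 i5 i6 i7 _)
    (ex u i hi 0 1 2 3 i0 i1 i2 i3 _) (by linarith [rel])
  -- the reduced matchings
  have r1 : red e u w i k = F5_lft ι e F5_i12 := by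
    have : red (F5_lft ι e F5_m) u w i k = F5_lft ι e (J2 (J2 F5_m 0 1 2 3) 8 10 9 11) := by
      unfold red J2
      rw [← i0, ← i1, ← i2, ← i3, ← i8, ← i9, ← i10, ← i11]
      simp only [F5_lft_join ι hι e he F5_m hm]
    rw [hself, F5_ra] at this
    exact this
  have r2 : red e v u j i = F5_lft ι e F5_i6 := by
    have : red (F5_lft ι e F5_m) v u j i = F5_lft ι e (J2 (J2 F5_m 4 5 6 7) 0 2 1 3) := by
      unfold red J2
      rw [← i0, ← i1, ← i2, ← i3, ← i4, ← i5, ← i6, ← i7]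
      simp only [F5_lft_join ι hι e he F5_m hm]
    rw [hself, F5_rb] at this
    exact this
  have r3 : red e w v k j = F5_lft ι e F5_i13 := by
    have : red (F5_lft ι e F5_m) w v k j = F5_lft ι e (J2 (J2 F5_m 8 9 10 11) 4 6 5 7) := by
      unfold red J2
      rw [← i4, ← i5, ← i6, ← i7, ← i8, ← i9, ← i10, ← i11]
      simp only [F5_lft_join ι hι e he F5_m hm]
    rw [hself, F5_rc] at this
    exact this
  simp only [hself] at key
  rw [r1, r2, r3, key]
  obtain ⟨q, hq⟩ := h16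
  rw [hq]
  exact ⟨-q, by ring⟩

end Pool.Agent.CY
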