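import Pool.Agent.helper56.CY.F5

namespace Pool.Agent.CY
open Finset CT

theorem RDV : RDV_stmt := by
  intro V _ L e u v w i j k hT
  obtain ⟨nd, act, hi, hj, hk, uv, vw, wu, u2, u3, v2, v3, w2, w3⟩ := hT
  obtain ⟨he, hA⟩ := act
  simp only [List.nodup_cons, List.mem_cons, not_or] at nd
  obtain ⟨⟨huv, huw, hu⟩, ⟨hvw, hv⟩, hw, hLn⟩ := nd
  have hι := F5_inj he huv huw hvw hu hv hw hi hj hk u2 u3 v2 v3 w2 w3
  generalize hιd : (![(u, i 0), (u, i 1), (u, i 2), (u, i 3), (v, j 0), (v, j 1), (v, j 2),
      (v, j 3), (w, k 0), (w, k 1), (w, k 2), (w, k 3), e (u, i 2), e (u, i 3), e (v, j 2),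
      e (v, j 3), e (w, k 2), e (w, k 3)] : Fin 18 → V × Fin 4) = ι at hι
  have i0 : ι 0 = (u, i 0) := by rw [← hιd]; rfl
  have i1 : ι 1 = (u, i 1) := by rw [← hιd]; rfl
  have i2 : ι 2 = (u, i 2) := by rw [← hιd]; rfl
  have i3 : ι 3 = (u, i 3) := by rw [← hιd]; rfl
  have i4 : ι 4 = (v, j 0) := by rw [← hιd]; rfl
  have i5 : ι 5 = (v, j 1) := by rw [← hιd]; rfl
  have i6 : ι 6 = (v, j 2) := by rw [← hιd]; rfl
  have i7 : ι 7 = (v, j 3) := by rw [← hιd]; rfl
  have i8 : ι 8 = (w, k 0) := by rw [← hιd]; rfl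
  have i9 : ι 9 = (w, k 1) := by rw [← hιd]; rfl
  have i10 : ι 10 = (w, k 2) := by rw [← hιd]; rfl
  have i11 : ι 11 = (w, k 3) := by rw [← hιd]; rfl
  have i12 : ι 12 = e (u, i 2) := by rw [← hιd]; rfl
  have i13 : ι 13 = e (u, i 3) := by rw [← hιd]; rfl
  have i14 : ι 14 = e (v, j 2) := by rw [← hιd]; rfl
  have i15 : ι 15 = e (v, j 3) := by rw [← hιd]; rfl
  have i16 : ι 16 = e (w, k 2) := by rw [← hιd]; rfl
  have i17 : ι 17 = e (w, k 3) := by rw [← hιd]; rfl
  clear hιd
  have hm : ∀ a, e (ι a) = ι (F5_m a) := by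
    intro a
    fin_cases a
    · show e (ι 0) = ι 5
      rw [i0, i5, uv]
    · show e (ι 1) = ι 8
      rw [i1, i8, ← wu, he]
    · show e (ι 2) = ι 12
      rw [i2, i12]
    · show e (ι 3) = ι 13
      rw [i3, i13]
    · show e (ι 4) = ι 9
      rw [i4, i9, vw]
    · show e (ι 5) = ι 0
      rw [i0, i5, ← uv, he]
    · show e (ι 6) = ι 14
      rw [i6, i14]
    · show e (ι 7) = ι 15
      rw [i7, i15]
    · show e (ι 8) = ι 1
      rw [i8, i1, wu]
    · show e (ι 9) = ι 4
      rw [i9, i4, ← vw, he]
    · show e (ι 10) = ι 16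
      rw [i10, i16]
    · show e (ι 11) = ι 17
      rw [i11, i17]
    · show e (ι 12) = ι 2
      rw [i12, i2, he]
    · show e (ι 13) = ι 3
      rw [i13, i3, he]
    · show e (ι 14) = ι 6
      rw [i14, i6, he]
    · show e (ι 15) = ι 7
      rw [i15, i7, he]
    · show e (ι 16) = ι 10
      rw [i16, i10, he]
    · show e (ι 17) = ι 11
      rw [i17, i11, he]
  have hself : F5_lft ι e F5_m = e := F5_lft_self ι hι e F5_m hm
  have r1 : red e u w i k = F5_lft ι e F5_i12 := by
    have : red (F5_lft ι e F5_m) u w i k = F5_lft ι e (J2 (J2 F5_m 0 1 2 3) 8 10 9 11) := by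
      unfold red J2
      rw [← i0, ← i1, ← i2, ← i3, ← i8, ← i9, ← i10, ← i11]
      simp only [F5_lft_join ι hι e he F5_m hm]
    rw [hself, F5_ra] at this
    exact this
  have V : ∀ a : Fin 18, red e u w i k (ι a) = ι (F5_i12 a) := by
    intro a
    rw [r1, F5_lft_io ι hι]
  have si : Function.Surjective i := Finite.surjective_of_injective hi
  have sj : Function.Surjective j := Finite.surjective_of_injective hj
  have sk : Function.Surjective k := Finite.surjective_of_injective hk
  refine ⟨?_, ?_, ?_, ?_, ?_, ?_, ?_, ?_⟩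
  · rintro ⟨y, n⟩ h
    rcases h with h | h
    · obtain rfl : y = u := h
      obtain ⟨s, rfl⟩ := si n
      fin_cases s
      · show red e y w i k (y, i 0) = (y, i 0)
        rw [← i0, V]; exact congrArg ι (by decide +kernel)
      · show red e y w i k (y, i 1) = (y, i 1)
        rw [← i1, V]; exact congrArg ι (by decide +kernel)
      · show red e y w i k (y, i 2) = (y, i 2)
        rw [← i2, V]; exact congrArg ι (by decide +kernel)
      · show red e y w i k (y, i 3) = (y, i 3)
        rw [← i3, V]; exact congrArg ι (by decide +kernel)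
    · obtain rfl : y = w := h
      obtain ⟨s, rfl⟩ := sk n
      fin_cases s
      · show red e u y i k (y, k 0) = (y, k 0)
        rw [← i8, V]; exact congrArg ι (by decide +kernel)
      · show red e u y i k (y, k 1) = (y, k 1)
        rw [← i9, V]; exact congrArg ι (by decide +kernel)
      · show red e u y i k (y, k 2) = (y, k 2)
        rw [← i10, V]; exact congrArg ι (by decide +kernel)
      · show red e u y i k (y, k 3) = (y, k 3)
        rw [← i11, V]; exact congrArg ι (by decide +kernel)
  · rw [← i4, V, ← i17]; exact congrArg ι (by decide +kernel)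
  · rw [← i5, V, ← i16]; exact congrArg ι (by decide +kernel)
  · rw [← i17, V, ← i4]; exact congrArg ι (by decide +kernel)
  · rw [← i16, V, ← i5]; exact congrArg ι (by decide +kernel)
  · rw [← i12, V, ← i13]; exact congrArg ι (by decide +kernel)
  · rw [← i13, V, ← i12]; exact congrArg ι (by decide +kernel)
  · intro d h1 h2 h3 h4 h5 h6 h7 h8
    rw [r1]
    by_cases h : ∃ a, ι a = d
    · obtain ⟨a, rfl⟩ := h
      rw [F5_lft_io ι hι, hm]
      fin_cases a
      · exact absurd (congrArg Prod.fst i0) h1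
      · exact absurd (congrArg Prod.fst i1) h1
      · exact absurd (congrArg Prod.fst i2) h1
      · exact absurd (congrArg Prod.fst i3) h1
      · exact absurd i4 h3
      · exact absurd i5 h4
      · exact congrArg ι (by decide +kernel)
      · exact congrArg ι (by decide +kernel)
      · exact absurd (congrArg Prod.fst i8) h2
      · exact absurd (congrArg Prod.fst i9) h2
      · exact absurd (congrArg Prod.fst i10) h2
      · exact absurd (congrArg Prod.fst i11) h2
      · exact absurd i12 h7
      · exact absurd i13 h8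
      · exact congrArg ι (by decide +kernel)
      · exact congrArg ι (by decide +kernel)
      · exact absurd i16 h6
      · exact absurd i17 h5
    · exact F5_lft_not ι e _ d (fun a ha => h ⟨a, ha⟩)

end Pool.Agent.CY
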