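import Pool.Agent.helper14.CY.FND
import Pool.Agent.helper17.CY.PLK
import Pool.Agent.helper17.CY.PLD
import Pool.Agent.helper17.CY.ROT
import Pool.Agent.helper17.CY.ZCG
import Pool.Agent.helper34.CY.SHT
import Pool.Agent.helper52.CY.RDA
import Pool.Agent.helper56.CY.F5
import Pool.Agent.helper63.CY.MAI
import Pool.Agent.helper64.CY.RDW
import Pool.Agent.helper68.CY.RDE
import Pool.Agent.helper56.CY.RDV
import Pool.Agent.helper72.CY.SPL
import Pool.Agent.helper74.CY.PLE
import Pool.Agent.helper75.CY.PLC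
import Pool.Agent.helper77.CY.LKC
import Pool.Agent.helper77.CY.LOP
import Pool.Agent.helper79.CY.SIX
import Pool.Agent.helper8.CY.BAS
import Pool.Agent.helper82.CY.PRD
import Pool.Agent.helper83.CY.COU
import Pool.Agent.helper83.CY.RDN
import Pool.Agent.helper88.CY.TRI
import Pool.Agent.helper97.CY.DEG
import Pool.Agent.helper99.CY.FNA
import Pool.Agent.helper99.CY.RDH
import Pool.Agent.helper56.CT.Fin2

/-! Assembly of project cy. -/

namespace Pool.Agent.CY
open Finset CT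

theorem ALL_PRD : PRD_stmt := PRD ZCG
theorem ALL_SPL : SPL_stmt := SPL ZCG ALL_PRD
theorem ALL_RDE : RDE_stmt := RDE RDV COU
theorem ALL_RDN : RDN_stmt := RDN COU
theorem ALL_RDH : RDH_stmt := RDH ALL_RDN RDW
theorem ALL_TRI : TRI_stmt := TRI SIX
theorem ALL_BAS : BAS_stmt := BAS SIX DEG
theorem ALL_MAI : MAI_stmt :=
  MAI ALL_SPL LOP F5 RDA ALL_RDE ALL_RDH ROT SHT ALL_BAS ALL_TRI
theorem ALL_FNA : FNA_stmt := FNA ALL_MAI LKC
theorem ALL_PLC : PLC_stmt := PLC PLK PLD
theorem ALL_FND : FND_stmt := FND ALL_FNA PLE ALL_PLC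

theorem ALL_neg {V : Type} [Fintype V] [DecidableEq V] (H : SimpleGraph V)
    (h : C2Is H (ZMod 2) (-1)) : ¬ C2Is H (ZMod 2) 0 := by
  intro h0
  have h1 := c2_unique H 0 (-1) h0 h
  omega

end Pool.Agent.CY
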