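import Pool.Agent.helper56.CY.Stmt

/-!
# MP_45d809: definitions of project cy (edge-disjoint cycles, planar graphs)
-/

namespace Pool.Agent.CY
open Finset CT

/-- Smoothing along the pairs `{a, b}` and `{c, d}`. -/
def J2 {D : Type*} [DecidableEq D] (e : D → D) (a b c d : D) : D → D := join (join e a b) c d

section
variable {V : Type} [DecidableEq V]

/-- `c` is constant along the strands of `e`, and at every vertex of `S` every colour (also the
colour 0) occurs an even number of times. -/
def EvCol (S : Finset V) (e : V × Fin 4 → V × Fin 4) (c : V × Fin 4 → ℕ) : Prop :=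
  (∀ d, c (e d) = c d) ∧
    ∀ u ∈ S, ∀ k : ℕ, Even ((univ : Finset (Fin 4)).filter fun i => c (u, i) = k).card

/-- The vertices of `S` met by a non-zero colour. -/
def Wt (S : Finset V) (c : V × Fin 4 → ℕ) : Finset V := S.filter fun u => ∃ i, c (u, i) ≠ 0

/-- The number of non-zero colours used at `S`. -/
def nb (S : Finset V) (c : V × Fin 4 → ℕ) : ℕ := (((dts S).image c).erase 0).card

/-- The hypothesis of the main proposition: colour 0 is used, at least one other colour is used,
and `|W| ≤ 2 b`, even `|W| + 1 ≤ 2 b` if `W` is everything. -/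
def Hyp (S : Finset V) (c : V × Fin 4 → ℕ) : Prop :=
  0 ∈ (dts S).image c ∧ 1 ≤ nb S c ∧
    (Wt S c).card + (if Wt S c = S then 1 else 0) ≤ 2 * nb S c

/-- No loops and no double strands at the vertices of `S`. -/
def Smp (S : Finset V) (e : V × Fin 4 → V × Fin 4) : Prop :=
  (∀ u ∈ S, ∀ i, (e (u, i)).1 ≠ u) ∧ ∀ u ∈ S, ∀ i j, (e (u, i)).1 = (e (u, j)).1 → i = j

/-- The vertices `u, v, w` form a triangle: strands `(u, i 0) - (v, j 1)`, `(v, j 0) - (w, k 1)`,
`(w, k 0) - (u, i 1)`; their other darts (numbers `i 2, i 3, ..`) are connected with darts at the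
vertices of `L`. -/
structure Tri (L : List V) (e : V × Fin 4 → V × Fin 4) (u v w : V) (i j k : Fin 4 → Fin 4) :
    Prop where
  nd : (u :: v :: w :: L).Nodup
  act : Act (dts (u :: v :: w :: L).toFinset) e
  hi : Function.Injective i
  hj : Function.Injective j
  hk : Function.Injective k
  uv : e (u, i 0) = (v, j 1)
  vw : e (v, j 0) = (w, k 1)
  wu : e (w, k 0) = (u, i 1)
  u2 : (e (u, i 2)).1 ∈ L
  u3 : (e (u, i 3)).1 ∈ L
  v2 : (e (v, j 2)).1 ∈ L
  v3 : (e (v, j 3)).1 ∈ L
  w2 : (e (w, k 2)).1 ∈ L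
  w3 : (e (w, k 3)).1 ∈ L

/-- `u` smoothed straight, `w` smoothed such that the two triangle darts of `v` continue through
the outer darts of `w`; the vertex `v` remains. -/
def red (e : V × Fin 4 → V × Fin 4) (u w : V) (i k : Fin 4 → Fin 4) : V × Fin 4 → V × Fin 4 :=
  J2 (J2 e (u, i 0) (u, i 1) (u, i 2) (u, i 3)) (w, k 0) (w, k 2) (w, k 1) (w, k 3)

/-- The colouring after the reduction: the two triangle darts of `v` get the colour of the outer
darts of `w`. -/
def cred (c : V × Fin 4 → ℕ) (v w : V) (j k : Fin 4 → Fin 4) : V × Fin 4 → ℕ := fun d =>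
  if d = (v, j 0) ∨ d = (v, j 1) then c (w, k 2) else c d

/-- A triangle which is a full colour class (colour `m`) of an even colouring `c`. -/
structure TriC (L : List V) (e : V × Fin 4 → V × Fin 4) (u v w : V) (i j k : Fin 4 → Fin 4)
    (c : V × Fin 4 → ℕ) (m : ℕ) : Prop where
  tri : Tri L e u v w i j k
  ev : EvCol (u :: v :: w :: L).toFinset e c
  col : ∀ d ∈ dts (u :: v :: w :: L).toFinset, c d = m ↔
    (d = (u, i 0) ∨ d = (u, i 1) ∨ d = (v, j 0) ∨ d = (v, j 1) ∨ d = (w, k 0) ∨ d = (w, k 1))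

end

end Pool.Agent.CY
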