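import Pool.Agent.helper56.CY.Spec
import Pool.Agent.helper56.CT.Fin1

/-! The finite model for the triangle relation. -/

namespace Pool.Agent.CY
open Finset CT

section
variable {D : Type*} [DecidableEq D]

open Classical in
/-- The matching `m` of the model transported along `ι`; elsewhere `e`. -/
noncomputable def F5_lft (ι : Fin 18 → D) (e : D → D) (m : Fin 18 → Fin 18) : D → D := fun z =>
  if h : ∃ a, ι a = z then ι (m (Classical.choose h)) else e z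

theorem F5_lft_io (ι : Fin 18 → D) (hι : Function.Injective ι) (e : D → D) (m : Fin 18 → Fin 18)
    (a : Fin 18) : F5_lft ι e m (ι a) = ι (m a) := by
  unfold F5_lft
  have h : ∃ b, ι b = ι a := ⟨a, rfl⟩
  rw [dif_pos h, hι (Classical.choose_spec h)]

theorem F5_lft_not (ι : Fin 18 → D) (e : D → D) (m : Fin 18 → Fin 18) (z : D)
    (h : ∀ a, ι a ≠ z) : F5_lft ι e m z = e z := by
  unfold F5_lft
  rw [dif_neg (by rintro ⟨a, ha⟩; exact h a ha)]

theorem F5_out (ι : Fin 18 → D) (e : D → D) (he : ∀ d, e (e d) = d)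
    (m : Fin 18 → Fin 18) (hm : ∀ a, e (ι a) = ι (m a)) (z : D) (h : ∀ a, ι a ≠ z) :
    ∀ a, ι a ≠ e z := by
  intro a ha
  apply h (m a)
  rw [← hm, ha, he]

theorem F5_lft_self (ι : Fin 18 → D) (hι : Function.Injective ι) (e : D → D)
    (m : Fin 18 → Fin 18) (hm : ∀ a, e (ι a) = ι (m a)) : F5_lft ι e m = e := by
  funext z
  by_cases h : ∃ a, ι a = z
  · obtain ⟨a, rfl⟩ := h
    rw [F5_lft_io ι hι, hm]
  · rw [F5_lft_not ι e m z (fun a ha => h ⟨a, ha⟩)]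

theorem F5_lft_join (ι : Fin 18 → D) (hι : Function.Injective ι) (e : D → D)
    (he : ∀ d, e (e d) = d) (m' : Fin 18 → Fin 18) (hm' : ∀ a, e (ι a) = ι (m' a))
    (m : Fin 18 → Fin 18) (x y : Fin 18) :
    join (F5_lft ι e m) (ι x) (ι y) = F5_lft ι e (join m x y) := by
  funext z
  by_cases h : ∃ a, ι a = z
  · obtain ⟨a, rfl⟩ := h
    rw [F5_lft_io ι hι]
    unfold join
    simp only [F5_lft_io ι hι, hι.eq_iff]
    split_ifs <;> rfl
  · have h1 : ∀ a, ι a ≠ z := fun a ha => h ⟨a, ha⟩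
    have h2 := F5_out ι e he m' hm' z h1
    rw [F5_lft_not ι e _ z h1]
    unfold join
    rw [F5_lft_not ι e _ z h1]
    rw [if_neg (by
      rintro (h3 | h3)
      · exact h1 _ h3.symm
      · exact h1 _ h3.symm), if_neg (fun h3 => h2 _ h3.symm), if_neg (fun h3 => h2 _ h3.symm)]

theorem F5_lft_lp (ι : Fin 18 → D) (hι : Function.Injective ι) (e : D → D)
    (m : Fin 18 → Fin 18) (x y : Fin 18) :
    CT.lp (F5_lft ι e m) (ι x) (ι y) = CT.lp m x y := by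
  unfold CT.lp
  simp only [F5_lft_io ι hι, hι.eq_iff]

theorem F5_lft_inv (ι : Fin 18 → D) (hι : Function.Injective ι) (e : D → D)
    (he : ∀ d, e (e d) = d) (m' : Fin 18 → Fin 18) (hm' : ∀ a, e (ι a) = ι (m' a))
    (m : Fin 18 → Fin 18) (hm : ∀ a, m (m a) = a) (d : D) :
    F5_lft ι e m (F5_lft ι e m d) = d := by
  by_cases h : ∃ a, ι a = d
  · obtain ⟨a, rfl⟩ := h
    rw [F5_lft_io ι hι, F5_lft_io ι hι, hm]
  · have h1 : ∀ a, ι a ≠ d := fun a ha => h ⟨a, ha⟩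
    have h2 := F5_out ι e he m' hm' d h1
    rw [F5_lft_not ι e _ d h1, F5_lft_not ι e _ _ h2, he]

theorem F5_lft_act (ι : Fin 18 → D) (hι : Function.Injective ι) (e : D → D)
    (he : ∀ d, e (e d) = d) (m' : Fin 18 → Fin 18) (hm' : ∀ a, e (ι a) = ι (m' a))
    (m : Fin 18 → Fin 18) (hm : ∀ a, m (m a) = a) (A : Finset D)
    (h1 : ∀ a, ι a ∈ A ↔ m a ≠ a) (h2 : ∀ z, (∀ a, ι a ≠ z) → (e z ≠ z ↔ z ∈ A)) :
    Act A (F5_lft ι e m) := by
  refine ⟨F5_lft_inv ι hι e he m' hm' m hm, ?_⟩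
  intro d
  by_cases h : ∃ a, ι a = d
  · obtain ⟨a, rfl⟩ := h
    rw [F5_lft_io ι hι, h1, ne_eq, hι.eq_iff]
  · have h3 : ∀ a, ι a ≠ d := fun a ha => h ⟨a, ha⟩
    rw [F5_lft_not ι e _ d h3]
    exact h2 d h3

end

section
variable {V : Type} [DecidableEq V]

/-- One term of the expansion. -/
noncomputable def F5_W (ι : Fin 18 → V × Fin 4) (e : V × Fin 4 → V × Fin 4) (x : ℤ) (L : List V)
    (m : Fin 18 → Fin 18) (p q r s : Fin 18) : ℤ :=
  x ^ (CT.lp m p q + CT.lp (join m p q) r s) * Z x L (F5_lft ι e (J2 m p q r s))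

theorem F5_ex (ι : Fin 18 → V × Fin 4) (hι : Function.Injective ι)
    (e : V × Fin 4 → V × Fin 4) (he : ∀ d, e (e d) = d) (m' : Fin 18 → Fin 18)
    (hm' : ∀ a, e (ι a) = ι (m' a)) (x : ℤ) (L : List V) (m : Fin 18 → Fin 18)
    (y : V) (q : Fin 4 → Fin 4) (hq : Function.Injective q) (a0 a1 a2 a3 : Fin 18)
    (h0 : ι a0 = (y, q 0)) (h1 : ι a1 = (y, q 1)) (h2 : ι a2 = (y, q 2)) (h3 : ι a3 = (y, q 3))
    (hm : ∀ a, m (m a) = a) (g0 : m a0 ≠ a0) (g1 : m a1 ≠ a1) (g2 : m a2 ≠ a2) (g3 : m a3 ≠ a3) :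
    Z x (y :: L) (F5_lft ι e m) =
      F5_W ι e x L m a0 a1 a2 a3 + F5_W ι e x L m a0 a2 a1 a3 + F5_W ι e x L m a0 a3 a1 a2 := by
  have hs : Function.Surjective q := Finite.surjective_of_injective hq
  have hinv := F5_lft_inv ι hι e he m' hm' m hm
  have hact : ∀ k, F5_lft ι e m (y, k) ≠ (y, k) := by
    intro k
    obtain ⟨s, rfl⟩ := hs k
    fin_cases s
    · show F5_lft ι e m (y, q 0) ≠ (y, q 0)
      rw [← h0, F5_lft_io ι hι]; exact fun h => g0 (hι h)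
    · show F5_lft ι e m (y, q 1) ≠ (y, q 1)
      rw [← h1, F5_lft_io ι hι]; exact fun h => g1 (hι h)
    · show F5_lft ι e m (y, q 2) ≠ (y, q 2)
      rw [← h2, F5_lft_io ι hι]; exact fun h => g2 (hι h)
    · show F5_lft ι e m (y, q 3) ≠ (y, q 3)
      rw [← h3, F5_lft_io ι hι]; exact fun h => g3 (hι h)
  have hnd : [q 0, q 1, q 2, q 3].Nodup := by
    simp only [List.nodup_cons, List.mem_cons, List.not_mem_nil, or_false, not_or,
      List.nodup_nil, and_true, not_false_eq_true, hq.eq_iff]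
    decide
  have key := D2_sum x (Z x L) (F5_lft ι e m) hinv y hact (q 0) (q 1) (q 2) (q 3) hnd
  have hZ : Z x (y :: L) (F5_lft ι e m) =
      ∑ t : Fin 3, x ^ ls (F5_lft ι e m) y t * Z x L (sm (F5_lft ι e m) y t) := rfl
  rw [hZ, key]
  unfold D2_F F5_W J2
  rw [← h0, ← h1, ← h2, ← h3]
  simp only [F5_lft_join ι hι e he m' hm', F5_lft_lp ι hι]

theorem F5_T3 (ι : Fin 18 → V × Fin 4) (hι : Function.Injective ι)
    (e : V × Fin 4 → V × Fin 4) (he : ∀ d, e (e d) = d) (m' : Fin 18 → Fin 18)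
    (hm' : ∀ a, e (ι a) = ι (m' a)) (x : ℤ) (L : List V) (m : Fin 18 → Fin 18)
    (a b c d f g : Fin 18) :
    T3 x L (F5_lft ι e m) (ι a) (ι b) (ι c) (ι d) (ι f) (ι g) =
      x ^ lp3 m a b c d f g * Z x L (F5_lft ι e (join3 m a b c d f g)) := by
  unfold T3 lp3 join3
  simp only [F5_lft_join ι hι e he m' hm', F5_lft_lp ι hι]

end
end Pool.Agent.CY
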