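import Pool.Agent.helper56.CY.F5a

/-! The triangle relation F5 (part of the text is generated: the 27 + 9 + 15 matchings of the
finite model). -/

namespace Pool.Agent.CY
open Finset CT

/-- The matching of the model: triangle strands and outer strands. -/
def F5_m : Fin 18 → Fin 18 := ![5, 8, 12, 13, 9, 0, 14, 15, 1, 4, 16, 17, 2, 3, 6, 7, 10, 11]
/-- Triangle strands closed off. -/
def F5_o : Fin 18 → Fin 18 := ![0, 1, 12, 13, 4, 5, 14, 15, 8, 9, 16, 17, 2, 3, 6, 7, 10, 11]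

def F5_c0 : Fin 18 → Fin 18 := ![0, 1, 2, 3, 4, 5, 6, 7, 8, 9, 10, 11, 13, 12, 15, 14, 17, 16]
def F5_c1 : Fin 18 → Fin 18 := ![0, 1, 2, 3, 4, 5, 6, 7, 8, 9, 10, 11, 13, 12, 17, 16, 15, 14]
def F5_c2 : Fin 18 → Fin 18 := ![0, 1, 2, 3, 4, 5, 6, 7, 8, 9, 10, 11, 13, 12, 16, 17, 14, 15]
def F5_c3 : Fin 18 → Fin 18 := ![0, 1, 2, 3, 4, 5, 6, 7, 8, 9, 10, 11, 17, 16, 15, 14, 13, 12]
def F5_c4 : Fin 18 → Fin 18 := ![0, 1, 2, 3, 4, 5, 6, 7, 8, 9, 10, 11, 16, 17, 15, 14, 12, 13]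
def F5_c5 : Fin 18 → Fin 18 := ![0, 1, 2, 3, 4, 5, 6, 7, 8, 9, 10, 11, 15, 14, 13, 12, 17, 16]
def F5_c6 : Fin 18 → Fin 18 := ![0, 1, 2, 3, 4, 5, 6, 7, 8, 9, 10, 11, 15, 16, 17, 12, 13, 14]
def F5_c7 : Fin 18 → Fin 18 := ![0, 1, 2, 3, 4, 5, 6, 7, 8, 9, 10, 11, 15, 17, 16, 12, 14, 13]
def F5_c8 : Fin 18 → Fin 18 := ![0, 1, 2, 3, 4, 5, 6, 7, 8, 9, 10, 11, 14, 15, 12, 13, 17, 16]
def F5_c9 : Fin 18 → Fin 18 := ![0, 1, 2, 3, 4, 5, 6, 7, 8, 9, 10, 11, 14, 16, 12, 17, 13, 15]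
def F5_c10 : Fin 18 → Fin 18 := ![0, 1, 2, 3, 4, 5, 6, 7, 8, 9, 10, 11, 14, 17, 12, 16, 15, 13]
def F5_c11 : Fin 18 → Fin 18 := ![0, 1, 2, 3, 4, 5, 6, 7, 8, 9, 10, 11, 16, 15, 17, 13, 12, 14]
def F5_c12 : Fin 18 → Fin 18 := ![0, 1, 2, 3, 4, 5, 6, 7, 8, 9, 10, 11, 17, 15, 16, 13, 14, 12]
def F5_c13 : Fin 18 → Fin 18 := ![0, 1, 2, 3, 4, 5, 6, 7, 8, 9, 10, 11, 16, 14, 13, 17, 12, 15]
def F5_c14 : Fin 18 → Fin 18 := ![0, 1, 2, 3, 4, 5, 6, 7, 8, 9, 10, 11, 17, 14, 13, 16, 15, 12]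

theorem F5_o_eq : join (join (join F5_m 0 5) 4 9) 8 1 = F5_o := by decide +kernel

section
variable {V : Type} [DecidableEq V]

/-- abstract form of the expansion lemma -/
def F5_Ex (Zf : (Fin 18 → Fin 18) → ℤ) (Zg : (Fin 18 → Fin 18) → ℤ) (a0 a1 a2 a3 : Fin 18) :
    Prop :=
  ∀ m : Fin 18 → Fin 18, (∀ a, m (m a) = a) → m a0 ≠ a0 → m a1 ≠ a1 → m a2 ≠ a2 → m a3 ≠ a3 →
    Zf m = (-4) ^ (CT.lp m a0 a1 + CT.lp (join m a0 a1) a2 a3) * Zg (J2 m a0 a1 a2 a3) +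
      (-4) ^ (CT.lp m a0 a2 + CT.lp (join m a0 a2) a1 a3) * Zg (J2 m a0 a2 a1 a3) +
      (-4) ^ (CT.lp m a0 a3 + CT.lp (join m a0 a3) a1 a2) * Zg (J2 m a0 a3 a1 a2)

end

def F5_i0 : Fin 18 → Fin 18 := ![0, 1, 2, 3, 9, 8, 14, 15, 5, 4, 16, 17, 13, 12, 6, 7, 10, 11]
def F5_i1 : Fin 18 → Fin 18 := ![0, 1, 2, 3, 9, 12, 14, 15, 13, 4, 16, 17, 5, 8, 6, 7, 10, 11]
def F5_i2 : Fin 18 → Fin 18 := ![0, 1, 2, 3, 9, 13, 14, 15, 12, 4, 16, 17, 8, 5, 6, 7, 10, 11]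
def F5_i3 : Fin 18 → Fin 18 := ![0, 1, 2, 3, 4, 5, 6, 7, 9, 8, 16, 17, 13, 12, 15, 14, 10, 11]
def F5_i4 : Fin 18 → Fin 18 := ![0, 1, 2, 3, 4, 5, 6, 7, 15, 14, 16, 17, 13, 12, 9, 8, 10, 11]
def F5_i5 : Fin 18 → Fin 18 := ![0, 1, 2, 3, 4, 5, 6, 7, 14, 15, 16, 17, 13, 12, 8, 9, 10, 11]
def F5_i6 : Fin 18 → Fin 18 := ![0, 1, 2, 3, 4, 5, 6, 7, 13, 12, 16, 17, 9, 8, 15, 14, 10, 11]
def F5_i7 : Fin 18 → Fin 18 := ![0, 1, 2, 3, 4, 5, 6, 7, 13, 14, 16, 17, 15, 8, 9, 12, 10, 11]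
def F5_i8 : Fin 18 → Fin 18 := ![0, 1, 2, 3, 4, 5, 6, 7, 13, 15, 16, 17, 14, 8, 12, 9, 10, 11]
def F5_i9 : Fin 18 → Fin 18 := ![0, 1, 2, 3, 4, 5, 6, 7, 12, 13, 16, 17, 8, 9, 15, 14, 10, 11]
def F5_i10 : Fin 18 → Fin 18 := ![0, 1, 2, 3, 4, 5, 6, 7, 12, 14, 16, 17, 8, 15, 9, 13, 10, 11]
def F5_i11 : Fin 18 → Fin 18 := ![0, 1, 2, 3, 4, 5, 6, 7, 12, 15, 16, 17, 8, 14, 13, 9, 10, 11]
def F5_i12 : Fin 18 → Fin 18 := ![0, 1, 2, 3, 17, 16, 14, 15, 8, 9, 10, 11, 13, 12, 6, 7, 5, 4]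
def F5_i13 : Fin 18 → Fin 18 := ![15, 14, 12, 13, 4, 5, 6, 7, 8, 9, 10, 11, 2, 3, 1, 0, 17, 16]

theorem F5_ra : J2 (J2 F5_m 0 1 2 3) 8 10 9 11 = F5_i12 := by decide +kernel
theorem F5_rb : J2 (J2 F5_m 4 5 6 7) 0 2 1 3 = F5_i6 := by decide +kernel
theorem F5_rc : J2 (J2 F5_m 8 9 10 11) 4 6 5 7 = F5_i13 := by decide +kernel

theorem F5_s_m_0 (Zf Zg : (Fin 18 → Fin 18) → ℤ) (h : F5_Ex Zf Zg 0 1 2 3) :
    Zf F5_m = Zg F5_i0 + Zg F5_i1 + Zg F5_i2 := by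
  have h1 := h F5_m (by decide +kernel) (by decide +kernel) (by decide +kernel) (by decide +kernel)
    (by decide +kernel)
  have e0 : J2 F5_m 0 1 2 3 = F5_i0 := by decide +kernel
  have k0 : CT.lp F5_m 0 1 + CT.lp (join F5_m 0 1) 2 3 = 0 := by decide +kernel
  have e1 : J2 F5_m 0 2 1 3 = F5_i1 := by decide +kernel
  have k1 : CT.lp F5_m 0 2 + CT.lp (join F5_m 0 2) 1 3 = 0 := by decide +kernel
  have e2 : J2 F5_m 0 3 1 2 = F5_i2 := by decide +kernel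
  have k2 : CT.lp F5_m 0 3 + CT.lp (join F5_m 0 3) 1 2 = 0 := by decide +kernel
  rw [e0, e1, e2, k0, k1, k2] at h1
  simpa using h1

theorem F5_s_i0_4 (Zf Zg : (Fin 18 → Fin 18) → ℤ) (h : F5_Ex Zf Zg 4 5 6 7) :
    Zf F5_i0 = Zg F5_i3 + Zg F5_i4 + Zg F5_i5 := by
  have h1 := h F5_i0 (by decide +kernel) (by decide +kernel) (by decide +kernel) (by decide +kernel)
    (by decide +kernel)
  have e0 : J2 F5_i0 4 5 6 7 = F5_i3 := by decide +kernel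
  have k0 : CT.lp F5_i0 4 5 + CT.lp (join F5_i0 4 5) 6 7 = 0 := by decide +kernel
  have e1 : J2 F5_i0 4 6 5 7 = F5_i4 := by decide +kernel
  have k1 : CT.lp F5_i0 4 6 + CT.lp (join F5_i0 4 6) 5 7 = 0 := by decide +kernel
  have e2 : J2 F5_i0 4 7 5 6 = F5_i5 := by decide +kernel
  have k2 : CT.lp F5_i0 4 7 + CT.lp (join F5_i0 4 7) 5 6 = 0 := by decide +kernel
  rw [e0, e1, e2, k0, k1, k2] at h1
  simpa using h1

theorem F5_s_i1_4 (Zf Zg : (Fin 18 → Fin 18) → ℤ) (h : F5_Ex Zf Zg 4 5 6 7) :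
    Zf F5_i1 = Zg F5_i6 + Zg F5_i7 + Zg F5_i8 := by
  have h1 := h F5_i1 (by decide +kernel) (by decide +kernel) (by decide +kernel) (by decide +kernel)
    (by decide +kernel)
  have e0 : J2 F5_i1 4 5 6 7 = F5_i6 := by decide +kernel
  have k0 : CT.lp F5_i1 4 5 + CT.lp (join F5_i1 4 5) 6 7 = 0 := by decide +kernel
  have e1 : J2 F5_i1 4 6 5 7 = F5_i7 := by decide +kernel
  have k1 : CT.lp F5_i1 4 6 + CT.lp (join F5_i1 4 6) 5 7 = 0 := by decide +kernel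
  have e2 : J2 F5_i1 4 7 5 6 = F5_i8 := by decide +kernel
  have k2 : CT.lp F5_i1 4 7 + CT.lp (join F5_i1 4 7) 5 6 = 0 := by decide +kernel
  rw [e0, e1, e2, k0, k1, k2] at h1
  simpa using h1

theorem F5_s_i2_4 (Zf Zg : (Fin 18 → Fin 18) → ℤ) (h : F5_Ex Zf Zg 4 5 6 7) :
    Zf F5_i2 = Zg F5_i9 + Zg F5_i10 + Zg F5_i11 := by
  have h1 := h F5_i2 (by decide +kernel) (by decide +kernel) (by decide +kernel) (by decide +kernel)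
    (by decide +kernel)
  have e0 : J2 F5_i2 4 5 6 7 = F5_i9 := by decide +kernel
  have k0 : CT.lp F5_i2 4 5 + CT.lp (join F5_i2 4 5) 6 7 = 0 := by decide +kernel
  have e1 : J2 F5_i2 4 6 5 7 = F5_i10 := by decide +kernel
  have k1 : CT.lp F5_i2 4 6 + CT.lp (join F5_i2 4 6) 5 7 = 0 := by decide +kernel
  have e2 : J2 F5_i2 4 7 5 6 = F5_i11 := by decide +kernel
  have k2 : CT.lp F5_i2 4 7 + CT.lp (join F5_i2 4 7) 5 6 = 0 := by decide +kernel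
  rw [e0, e1, e2, k0, k1, k2] at h1
  simpa using h1

theorem F5_s_i3_8 (Zf Zg : (Fin 18 → Fin 18) → ℤ) (h : F5_Ex Zf Zg 8 9 10 11) :
    Zf F5_i3 = (-4) ^ 1 * Zg F5_c0 + Zg F5_c0 + Zg F5_c0 := by
  have h1 := h F5_i3 (by decide +kernel) (by decide +kernel) (by decide +kernel) (by decide +kernel)
    (by decide +kernel)
  have e0 : J2 F5_i3 8 9 10 11 = F5_c0 := by decide +kernel
  have k0 : CT.lp F5_i3 8 9 + CT.lp (join F5_i3 8 9) 10 11 = 1 := by decide +kernel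
  have e1 : J2 F5_i3 8 10 9 11 = F5_c0 := by decide +kernel
  have k1 : CT.lp F5_i3 8 10 + CT.lp (join F5_i3 8 10) 9 11 = 0 := by decide +kernel
  have e2 : J2 F5_i3 8 11 9 10 = F5_c0 := by decide +kernel
  have k2 : CT.lp F5_i3 8 11 + CT.lp (join F5_i3 8 11) 9 10 = 0 := by decide +kernel
  rw [e0, e1, e2, k0, k1, k2] at h1
  simpa using h1

theorem F5_s_i4_8 (Zf Zg : (Fin 18 → Fin 18) → ℤ) (h : F5_Ex Zf Zg 8 9 10 11) :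
    Zf F5_i4 = Zg F5_c0 + Zg F5_c1 + Zg F5_c2 := by
  have h1 := h F5_i4 (by decide +kernel) (by decide +kernel) (by decide +kernel) (by decide +kernel)
    (by decide +kernel)
  have e0 : J2 F5_i4 8 9 10 11 = F5_c0 := by decide +kernel
  have k0 : CT.lp F5_i4 8 9 + CT.lp (join F5_i4 8 9) 10 11 = 0 := by decide +kernel
  have e1 : J2 F5_i4 8 10 9 11 = F5_c1 := by decide +kernel
  have k1 : CT.lp F5_i4 8 10 + CT.lp (join F5_i4 8 10) 9 11 = 0 := by decide +kernel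
  have e2 : J2 F5_i4 8 11 9 10 = F5_c2 := by decide +kernel
  have k2 : CT.lp F5_i4 8 11 + CT.lp (join F5_i4 8 11) 9 10 = 0 := by decide +kernel
  rw [e0, e1, e2, k0, k1, k2] at h1
  simpa using h1

theorem F5_s_i5_8 (Zf Zg : (Fin 18 → Fin 18) → ℤ) (h : F5_Ex Zf Zg 8 9 10 11) :
    Zf F5_i5 = Zg F5_c0 + Zg F5_c2 + Zg F5_c1 := by
  have h1 := h F5_i5 (by decide +kernel) (by decide +kernel) (by decide +kernel) (by decide +kernel)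
    (by decide +kernel)
  have e0 : J2 F5_i5 8 9 10 11 = F5_c0 := by decide +kernel
  have k0 : CT.lp F5_i5 8 9 + CT.lp (join F5_i5 8 9) 10 11 = 0 := by decide +kernel
  have e1 : J2 F5_i5 8 10 9 11 = F5_c2 := by decide +kernel
  have k1 : CT.lp F5_i5 8 10 + CT.lp (join F5_i5 8 10) 9 11 = 0 := by decide +kernel
  have e2 : J2 F5_i5 8 11 9 10 = F5_c1 := by decide +kernel
  have k2 : CT.lp F5_i5 8 11 + CT.lp (join F5_i5 8 11) 9 10 = 0 := by decide +kernel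
  rw [e0, e1, e2, k0, k1, k2] at h1
  simpa using h1

theorem F5_s_i6_8 (Zf Zg : (Fin 18 → Fin 18) → ℤ) (h : F5_Ex Zf Zg 8 9 10 11) :
    Zf F5_i6 = Zg F5_c0 + Zg F5_c3 + Zg F5_c4 := by
  have h1 := h F5_i6 (by decide +kernel) (by decide +kernel) (by decide +kernel) (by decide +kernel)
    (by decide +kernel)
  have e0 : J2 F5_i6 8 9 10 11 = F5_c0 := by decide +kernel
  have k0 : CT.lp F5_i6 8 9 + CT.lp (join F5_i6 8 9) 10 11 = 0 := by decide +kernel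
  have e1 : J2 F5_i6 8 10 9 11 = F5_c3 := by decide +kernel
  have k1 : CT.lp F5_i6 8 10 + CT.lp (join F5_i6 8 10) 9 11 = 0 := by decide +kernel
  have e2 : J2 F5_i6 8 11 9 10 = F5_c4 := by decide +kernel
  have k2 : CT.lp F5_i6 8 11 + CT.lp (join F5_i6 8 11) 9 10 = 0 := by decide +kernel
  rw [e0, e1, e2, k0, k1, k2] at h1
  simpa using h1

theorem F5_s_i7_8 (Zf Zg : (Fin 18 → Fin 18) → ℤ) (h : F5_Ex Zf Zg 8 9 10 11) :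
    Zf F5_i7 = Zg F5_c5 + Zg F5_c6 + Zg F5_c7 := by
  have h1 := h F5_i7 (by decide +kernel) (by decide +kernel) (by decide +kernel) (by decide +kernel)
    (by decide +kernel)
  have e0 : J2 F5_i7 8 9 10 11 = F5_c5 := by decide +kernel
  have k0 : CT.lp F5_i7 8 9 + CT.lp (join F5_i7 8 9) 10 11 = 0 := by decide +kernel
  have e1 : J2 F5_i7 8 10 9 11 = F5_c6 := by decide +kernel
  have k1 : CT.lp F5_i7 8 10 + CT.lp (join F5_i7 8 10) 9 11 = 0 := by decide +kernel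
  have e2 : J2 F5_i7 8 11 9 10 = F5_c7 := by decide +kernel
  have k2 : CT.lp F5_i7 8 11 + CT.lp (join F5_i7 8 11) 9 10 = 0 := by decide +kernel
  rw [e0, e1, e2, k0, k1, k2] at h1
  simpa using h1

theorem F5_s_i8_8 (Zf Zg : (Fin 18 → Fin 18) → ℤ) (h : F5_Ex Zf Zg 8 9 10 11) :
    Zf F5_i8 = Zg F5_c8 + Zg F5_c9 + Zg F5_c10 := by
  have h1 := h F5_i8 (by decide +kernel) (by decide +kernel) (by decide +kernel) (by decide +kernel)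
    (by decide +kernel)
  have e0 : J2 F5_i8 8 9 10 11 = F5_c8 := by decide +kernel
  have k0 : CT.lp F5_i8 8 9 + CT.lp (join F5_i8 8 9) 10 11 = 0 := by decide +kernel
  have e1 : J2 F5_i8 8 10 9 11 = F5_c9 := by decide +kernel
  have k1 : CT.lp F5_i8 8 10 + CT.lp (join F5_i8 8 10) 9 11 = 0 := by decide +kernel
  have e2 : J2 F5_i8 8 11 9 10 = F5_c10 := by decide +kernel
  have k2 : CT.lp F5_i8 8 11 + CT.lp (join F5_i8 8 11) 9 10 = 0 := by decide +kernel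
  rw [e0, e1, e2, k0, k1, k2] at h1
  simpa using h1

theorem F5_s_i9_8 (Zf Zg : (Fin 18 → Fin 18) → ℤ) (h : F5_Ex Zf Zg 8 9 10 11) :
    Zf F5_i9 = Zg F5_c0 + Zg F5_c4 + Zg F5_c3 := by
  have h1 := h F5_i9 (by decide +kernel) (by decide +kernel) (by decide +kernel) (by decide +kernel)
    (by decide +kernel)
  have e0 : J2 F5_i9 8 9 10 11 = F5_c0 := by decide +kernel
  have k0 : CT.lp F5_i9 8 9 + CT.lp (join F5_i9 8 9) 10 11 = 0 := by decide +kernel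
  have e1 : J2 F5_i9 8 10 9 11 = F5_c4 := by decide +kernel
  have k1 : CT.lp F5_i9 8 10 + CT.lp (join F5_i9 8 10) 9 11 = 0 := by decide +kernel
  have e2 : J2 F5_i9 8 11 9 10 = F5_c3 := by decide +kernel
  have k2 : CT.lp F5_i9 8 11 + CT.lp (join F5_i9 8 11) 9 10 = 0 := by decide +kernel
  rw [e0, e1, e2, k0, k1, k2] at h1
  simpa using h1

theorem F5_s_i10_8 (Zf Zg : (Fin 18 → Fin 18) → ℤ) (h : F5_Ex Zf Zg 8 9 10 11) :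
    Zf F5_i10 = Zg F5_c8 + Zg F5_c11 + Zg F5_c12 := by
  have h1 := h F5_i10 (by decide +kernel) (by decide +kernel) (by decide +kernel) (by decide +kernel)
    (by decide +kernel)
  have e0 : J2 F5_i10 8 9 10 11 = F5_c8 := by decide +kernel
  have k0 : CT.lp F5_i10 8 9 + CT.lp (join F5_i10 8 9) 10 11 = 0 := by decide +kernel
  have e1 : J2 F5_i10 8 10 9 11 = F5_c11 := by decide +kernel
  have k1 : CT.lp F5_i10 8 10 + CT.lp (join F5_i10 8 10) 9 11 = 0 := by decide +kernel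
  have e2 : J2 F5_i10 8 11 9 10 = F5_c12 := by decide +kernel
  have k2 : CT.lp F5_i10 8 11 + CT.lp (join F5_i10 8 11) 9 10 = 0 := by decide +kernel
  rw [e0, e1, e2, k0, k1, k2] at h1
  simpa using h1

theorem F5_s_i11_8 (Zf Zg : (Fin 18 → Fin 18) → ℤ) (h : F5_Ex Zf Zg 8 9 10 11) :
    Zf F5_i11 = Zg F5_c5 + Zg F5_c13 + Zg F5_c14 := by
  have h1 := h F5_i11 (by decide +kernel) (by decide +kernel) (by decide +kernel) (by decide +kernel)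
    (by decide +kernel)
  have e0 : J2 F5_i11 8 9 10 11 = F5_c5 := by decide +kernel
  have k0 : CT.lp F5_i11 8 9 + CT.lp (join F5_i11 8 9) 10 11 = 0 := by decide +kernel
  have e1 : J2 F5_i11 8 10 9 11 = F5_c13 := by decide +kernel
  have k1 : CT.lp F5_i11 8 10 + CT.lp (join F5_i11 8 10) 9 11 = 0 := by decide +kernel
  have e2 : J2 F5_i11 8 11 9 10 = F5_c14 := by decide +kernel
  have k2 : CT.lp F5_i11 8 11 + CT.lp (join F5_i11 8 11) 9 10 = 0 := by decide +kernel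
  rw [e0, e1, e2, k0, k1, k2] at h1
  simpa using h1

theorem F5_s_i12_4 (Zf Zg : (Fin 18 → Fin 18) → ℤ) (h : F5_Ex Zf Zg 4 5 6 7) :
    Zf F5_i12 = Zg F5_c0 + Zg F5_c1 + Zg F5_c2 := by
  have h1 := h F5_i12 (by decide +kernel) (by decide +kernel) (by decide +kernel) (by decide +kernel)
    (by decide +kernel)
  have e0 : J2 F5_i12 4 5 6 7 = F5_c0 := by decide +kernel
  have k0 : CT.lp F5_i12 4 5 + CT.lp (join F5_i12 4 5) 6 7 = 0 := by decide +kernel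
  have e1 : J2 F5_i12 4 6 5 7 = F5_c1 := by decide +kernel
  have k1 : CT.lp F5_i12 4 6 + CT.lp (join F5_i12 4 6) 5 7 = 0 := by decide +kernel
  have e2 : J2 F5_i12 4 7 5 6 = F5_c2 := by decide +kernel
  have k2 : CT.lp F5_i12 4 7 + CT.lp (join F5_i12 4 7) 5 6 = 0 := by decide +kernel
  rw [e0, e1, e2, k0, k1, k2] at h1
  simpa using h1

theorem F5_s_i13_0 (Zf Zg : (Fin 18 → Fin 18) → ℤ) (h : F5_Ex Zf Zg 0 1 2 3) :
    Zf F5_i13 = Zg F5_c0 + Zg F5_c5 + Zg F5_c8 := by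
  have h1 := h F5_i13 (by decide +kernel) (by decide +kernel) (by decide +kernel) (by decide +kernel)
    (by decide +kernel)
  have e0 : J2 F5_i13 0 1 2 3 = F5_c0 := by decide +kernel
  have k0 : CT.lp F5_i13 0 1 + CT.lp (join F5_i13 0 1) 2 3 = 0 := by decide +kernel
  have e1 : J2 F5_i13 0 2 1 3 = F5_c5 := by decide +kernel
  have k1 : CT.lp F5_i13 0 2 + CT.lp (join F5_i13 0 2) 1 3 = 0 := by decide +kernel
  have e2 : J2 F5_i13 0 3 1 2 = F5_c8 := by decide +kernel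
  have k2 : CT.lp F5_i13 0 3 + CT.lp (join F5_i13 0 3) 1 2 = 0 := by decide +kernel
  rw [e0, e1, e2, k0, k1, k2] at h1
  simpa using h1

theorem F5_t0 : join3 F5_o 2 3 6 7 10 11 = F5_c0 ∧ lp3 F5_o 2 3 6 7 10 11 = 0 := by decide +kernel
theorem F5_t1 : join3 F5_o 2 3 6 10 7 11 = F5_c2 ∧ lp3 F5_o 2 3 6 10 7 11 = 0 := by decide +kernel
theorem F5_t2 : join3 F5_o 2 3 6 11 7 10 = F5_c1 ∧ lp3 F5_o 2 3 6 11 7 10 = 0 := by decide +kernel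
theorem F5_t3 : join3 F5_o 2 6 3 7 10 11 = F5_c8 ∧ lp3 F5_o 2 6 3 7 10 11 = 0 := by decide +kernel
theorem F5_t4 : join3 F5_o 2 6 3 10 7 11 = F5_c9 ∧ lp3 F5_o 2 6 3 10 7 11 = 0 := by decide +kernel
theorem F5_t5 : join3 F5_o 2 6 3 11 7 10 = F5_c10 ∧ lp3 F5_o 2 6 3 11 7 10 = 0 := by decide +kernel
theorem F5_t6 : join3 F5_o 2 7 3 6 10 11 = F5_c5 ∧ lp3 F5_o 2 7 3 6 10 11 = 0 := by decide +kernel
theorem F5_t7 : join3 F5_o 2 7 3 10 6 11 = F5_c6 ∧ lp3 F5_o 2 7 3 10 6 11 = 0 := by decide +kernel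
theorem F5_t8 : join3 F5_o 2 7 3 11 6 10 = F5_c7 ∧ lp3 F5_o 2 7 3 11 6 10 = 0 := by decide +kernel
theorem F5_t9 : join3 F5_o 2 10 3 6 7 11 = F5_c13 ∧ lp3 F5_o 2 10 3 6 7 11 = 0 := by decide +kernel
theorem F5_t10 : join3 F5_o 2 10 3 7 6 11 = F5_c11 ∧ lp3 F5_o 2 10 3 7 6 11 = 0 := by decide +kernel
theorem F5_t11 : join3 F5_o 2 10 3 11 6 7 = F5_c4 ∧ lp3 F5_o 2 10 3 11 6 7 = 0 := by decide +kernel
theorem F5_t12 : join3 F5_o 2 11 3 6 7 10 = F5_c14 ∧ lp3 F5_o 2 11 3 6 7 10 = 0 := by decide +kernel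
theorem F5_t13 : join3 F5_o 2 11 3 7 6 10 = F5_c12 ∧ lp3 F5_o 2 11 3 7 6 10 = 0 := by decide +kernel
theorem F5_t14 : join3 F5_o 2 11 3 10 6 7 = F5_c3 ∧ lp3 F5_o 2 11 3 10 6 7 = 0 := by decide +kernel

theorem F5_alg (Z3 Z2 Z1 Z0 Zv Zu : (Fin 18 → Fin 18) → ℤ) (h3 : F5_Ex Z3 Z2 0 1 2 3)
    (h2 : F5_Ex Z2 Z1 4 5 6 7) (h1 : F5_Ex Z1 Z0 8 9 10 11) (hv : F5_Ex Zv Z0 4 5 6 7)
    (hu : F5_Ex Zu Z0 0 1 2 3)
    (hrel : Z0 F5_c0 + Z0 F5_c2 + Z0 F5_c1 + Z0 F5_c8 + Z0 F5_c9 + Z0 F5_c10 + Z0 F5_c5 + Z0 F5_c6 + Z0 F5_c7 + Z0 F5_c13 + Z0 F5_c11 + Z0 F5_c4 + Z0 F5_c14 + Z0 F5_c12 + Z0 F5_c3 = 0) :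
    Z3 F5_m - (Zv F5_i12 + Z1 F5_i6 + Zu F5_i13) = - 2 * Z0 F5_c0 := by
  have q_s_m_0 := F5_s_m_0 Z3 Z2 h3
  have q_s_i0_4 := F5_s_i0_4 Z2 Z1 h2
  have q_s_i1_4 := F5_s_i1_4 Z2 Z1 h2
  have q_s_i2_4 := F5_s_i2_4 Z2 Z1 h2
  have q_s_i3_8 := F5_s_i3_8 Z1 Z0 h1
  have q_s_i4_8 := F5_s_i4_8 Z1 Z0 h1
  have q_s_i5_8 := F5_s_i5_8 Z1 Z0 h1
  have q_s_i6_8 := F5_s_i6_8 Z1 Z0 h1
  have q_s_i7_8 := F5_s_i7_8 Z1 Z0 h1
  have q_s_i8_8 := F5_s_i8_8 Z1 Z0 h1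
  have q_s_i9_8 := F5_s_i9_8 Z1 Z0 h1
  have q_s_i10_8 := F5_s_i10_8 Z1 Z0 h1
  have q_s_i11_8 := F5_s_i11_8 Z1 Z0 h1
  have q_s_i12_4 := F5_s_i12_4 Zv Z0 hv
  have q_s_i13_0 := F5_s_i13_0 Zu Z0 hu
  linarith

end Pool.Agent.CY
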