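import Pool.Agent.helper56.CY.Defs

/-!
# Project cy (MP_45d809_mp): edge-disjoint cycles, planar graphs

Everything in namespace `CT` is proved (`Pool.Agent.helper56.CT.Fin1` imports all of it; in
particular `join_invol`, `join_act`, `join_symm`, `join_comm`, `join_chain` in J1.lean, `fJC1`,
`fD4`, `fJZ2`, `JZ5`, `JZ5_act`, `D1`, `D2_sum`).  `Z x L e` is the state sum, see CT/Defs.lean.
-/

namespace Pool.Agent.CY
open Finset CT

/-! ## Part S: state sums -/

/-- ZCG: the state sum only depends on the matching at the darts of the vertices of `L`.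
Proof: induction on `L` (all `e`, `e'`). `join e x y z` is one of `z`, `e x`, `e y`, `e z`, chosen
by the values `e z`; so if `e`, `e'` agree on the set `T = dts (u :: L).toFinset` and `x, y ∈ T`,
then `join e x y` and `join e' x y` agree on `T`, and `lp e x y = lp e' x y`. Twice: `sm e u t`,
`sm e' u t` agree on `T ⊇ dts L.toFinset` and `ls e u t = ls e' u t`. -/
def ZCG_stmt : Prop :=
  ∀ (V : Type) [DecidableEq V] (x : ℤ) (L : List V) (e e' : V × Fin 4 → V × Fin 4),
    (∀ d ∈ dts L.toFinset, e d = e' d) → Z x L e = Z x L e'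

/-- PRD: the state sum is multiplicative.
Proof: induction on `L1`; `[]`: `Z x [] e = 1`. Step `u :: L1`: every term is
`x ^ ls e u t * Z x (L1 ++ L2) (sm e u t)`. `sm e u t` is an involution, active exactly at the
darts of `(L1 ++ L2)` (`JZ5_act`; `((u :: L1) ++ L2).toFinset.erase u = (L1 ++ L2).toFinset`).
For `d` at a vertex of `L1` the value `sm e u t d` is one of `d`, `e (u, a)`, `e (u, b)`, `e d`, ..,
all in `dts (u :: L1)`, and it is not a dart of `u` (these are fixed points of the involution
`sm e u t`), so it is in `dts L1`. For `d` at a vertex of `L2`: `e d` is not a dart of `u :: L1`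
(otherwise `d = e (e d)` would be one), so `sm e u t d = e d`. By the induction hypothesis and
`hZ` (ZCG) `Z x (L1 ++ L2) (sm e u t) = Z x L1 (sm e u t) * Z x L2 e`. -/
def PRD_stmt : Prop :=
  ∀ (V : Type) [DecidableEq V] (x : ℤ) (L1 L2 : List V) (e : V × Fin 4 → V × Fin 4),
    (L1 ++ L2).Nodup → Act (dts (L1 ++ L2).toFinset) e →
    (∀ d ∈ dts L1.toFinset, e d ∈ dts L1.toFinset) →
    Z x (L1 ++ L2) e = Z x L1 e * Z x L2 e

/-- SPL: two separate parts.
Proof: by PRD it is enough that 8 divides `Z (-4) L1 e` and `Z (-4) L2 e`. Let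
`e1 d = if d ∈ dts L1.toFinset then e d else d`; `Act (dts L1.toFinset) e1` and by ZCG
`Z (-4) L1 e = Z (-4) L1 e1`. Write `L1 = L' ++ [v]` (`List.eq_nil_or_concat`), JZ5 gives
`Z (-4) (L' ++ [v]) e1 = ((-4) ^ 2 + 2 * (-4)) * Z (-4) L' e1 = 8 * ..`. The same for `L2` (the
involution `e` also preserves `dts L2.toFinset`). -/
def SPL_stmt : Prop :=
  ∀ (V : Type) [DecidableEq V] (L1 L2 : List V) (e : V × Fin 4 → V × Fin 4),
    (L1 ++ L2).Nodup → L1 ≠ [] → L2 ≠ [] → Act (dts (L1 ++ L2).toFinset) e →
    (∀ d ∈ dts L1.toFinset, e d ∈ dts L1.toFinset) → 32 ∣ Z (-4) (L1 ++ L2) e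

/-- LOP: a loop.
Proof: choose `i2 i3` with `[i, j, i2, i3].Nodup` (`D4_ex`); `Z (-4) (u :: L) e = ∑ t, ..` is by
`D2_sum` (with `G = Z (-4) L`) the sum of three terms. Put `p = (u, i)`, `q = (u, j)`, `e p = q`,
`y = (u, i2)`, `z = (u, i3)`. First term: `lp e p q = 1`, so it is
`(-4) ^ (1 + lp (join e p q) y z) * Z (-4) L (join (join e p q) y z)`. The other two are
`join (join e p y) q z` and `join (join e p z) q y`: by `join_chain` both matchings are
`join (join e p q) y z` (use `join_symm`), the loops are `0 + lp (join e p q) y z`. So the sum is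
`(-4 + 2) * (-4) ^ lp (..) * Z (-4) L e'` with `e' = join (join e p q) y z`,
`Act (dts L.toFinset) e'` (`join_act` twice, the four darts of `u` are removed), and `16 ∣ Z (-4)
L e'` by `fJC1`. -/
def LOP_stmt : Prop :=
  ∀ (V : Type) [Fintype V] [DecidableEq V] (L : List V) (e : V × Fin 4 → V × Fin 4) (u : V)
    (i j : Fin 4),
    (u :: L).Nodup → 3 ≤ L.length → Act (dts (u :: L).toFinset) e → i ≠ j →
    e (u, i) = (u, j) → 32 ∣ Z (-4) (u :: L) e

/-- F5: the triangle relation (see the paper /team-store/MP_45d809_cycles_helper56.md).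
The eighteen darts at `u, v, w` and the other ends of the six outer strands are the image of an
injection `Fin 18 → V × Fin 4` compatible with a concrete involution of `Fin 18`; all expansions
(`D2_sum`) take place there and can be decided. -/
def F5_stmt : Prop :=
  ∀ (V : Type) [Fintype V] [DecidableEq V] (L : List V) (e : V × Fin 4 → V × Fin 4) (u v w : V)
    (i j k : Fin 4 → Fin 4),
    Tri L e u v w i j k → 3 ≤ L.length →
    32 ∣ Z (-4) (u :: v :: w :: L) e - (Z (-4) (v :: L) (red e u w i k) +
      Z (-4) (w :: L) (red e v u j i) + Z (-4) (u :: L) (red e w v k j))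

/-! ## Part R: the reduction of the colouring -/

/-- RDA: activity of the reduced matching.
Proof: `join_act` four times: the eight darts at `u` and `w` are removed from the active set;
the rest is `dts (v :: L).toFinset` (`i`, `k` are injective, hence surjective on `Fin 4`). -/
def RDA_stmt : Prop :=
  ∀ (V : Type) [DecidableEq V] (L : List V) (e : V × Fin 4 → V × Fin 4) (u v w : V)
    (i j k : Fin 4 → Fin 4),
    Tri L e u v w i j k → Act (dts (v :: L).toFinset) (red e u w i k)

/-- RDV: the values of the reduced matching.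
Proof: put `e1 = join e (u, i 0) (u, i 1)`, `e2 = join e1 (u, i 2) (u, i 3)`,
`e3 = join e2 (w, k 0) (w, k 2)`, `red = join e3 (w, k 1) (w, k 3)` and unfold `join` at each dart
concerned. `e1` exchanges `(v, j 1)` and `(w, k 0)` (the other ends of the strands at `(u, i 0)`,
`(u, i 1)`) and is `e` at the other darts not at `u`; `e2` moreover exchanges `e (u, i 2)` and
`e (u, i 3)`; `e3` exchanges `(v, j 1)` and `e (w, k 2)`; the last one `(v, j 0)` and
`e (w, k 3)`. All darts named here are different: those at `u, v, w` because `i, j, k` are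
injective, and the four outer ends are at vertices of `L` (they are different because `e` is
injective). -/
def RDV_stmt : Prop :=
  ∀ (V : Type) [DecidableEq V] (L : List V) (e : V × Fin 4 → V × Fin 4) (u v w : V)
    (i j k : Fin 4 → Fin 4),
    Tri L e u v w i j k →
    (∀ d, d.1 = u ∨ d.1 = w → red e u w i k d = d) ∧
    red e u w i k (v, j 0) = e (w, k 3) ∧ red e u w i k (v, j 1) = e (w, k 2) ∧
    red e u w i k (e (w, k 3)) = (v, j 0) ∧ red e u w i k (e (w, k 2)) = (v, j 1) ∧
    red e u w i k (e (u, i 2)) = e (u, i 3) ∧ red e u w i k (e (u, i 3)) = e (u, i 2) ∧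
    ∀ d, d.1 ≠ u → d.1 ≠ w → d ≠ (v, j 0) → d ≠ (v, j 1) → d ≠ e (w, k 3) → d ≠ e (w, k 2) →
      d ≠ e (u, i 2) → d ≠ e (u, i 3) → red e u w i k d = e d

/-- COU: the outer darts at a triangle vertex have one colour, different from `m`.
Proof: at `u` the darts `(u, i 0)`, `(u, i 1)` have colour `m` and `(u, i 2)`, `(u, i 3)` do not
(`col`, as `i` is injective and `u, v, w` are different); the colour of `(u, i 2)` occurs an even
number of times at `u` (`ev`), so it is also the colour of `(u, i 3)`. -/
def COU_stmt : Prop :=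
  ∀ (V : Type) [DecidableEq V] (L : List V) (e : V × Fin 4 → V × Fin 4) (u v w : V)
    (i j k : Fin 4 → Fin 4) (c : V × Fin 4 → ℕ) (m : ℕ),
    TriC L e u v w i j k c m →
    (c (u, i 2) = c (u, i 3) ∧ c (v, j 2) = c (v, j 3) ∧ c (w, k 2) = c (w, k 3)) ∧
    c (u, i 2) ≠ m ∧ c (v, j 2) ≠ m ∧ c (w, k 2) ≠ m

/-- ROT: rotation of the triangle.
Proof: the three vertices `v, w, u` in the new order; the lists `v :: w :: u :: L` and
`u :: v :: w :: L` have the same underlying finite set; all fields are permuted. -/
def ROT_stmt : Prop :=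
  ∀ (V : Type) [DecidableEq V] (L : List V) (e : V × Fin 4 → V × Fin 4) (u v w : V)
    (i j k : Fin 4 → Fin 4) (c : V × Fin 4 → ℕ) (m : ℕ),
    TriC L e u v w i j k c m → TriC L e v w u j k i c m

/-- RDE: the new colouring is even for the new matching.
Proof: let `c' = cred c v w j k`. Invariance `c' (red d) = c' d` by the cases of RDV: `(v, j 0)`,
`(v, j 1)` have the new colour `c (w, k 2) = c (w, k 3)` (COU), and `c (e (w, k 3)) = c (w, k 3)`,
`c' = c` at the darts `e (w, k 2)`, `e (w, k 3)`, `e (u, i 2)`, `e (u, i 3)` (they are at vertices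
of `L`, not at `v`); `c (e (u, i 2)) = c (u, i 2) = c (u, i 3) = c (e (u, i 3))`; for the other
darts `d` (not at `u`, `w`): `red d = e d` and `e d` is not `(v, j 0)`, `(v, j 1)` either (else
`d = (w, k 1)` or `d = (u, i 0)`), so `c' (e d) = c (e d) = c d = c' d`. Evenness at vertices of
`L`: `c' = c`. At `v`: `(v, j 0)`, `(v, j 1)` have one colour and `(v, j 2)`, `(v, j 3)` have one
colour (COU): for every `a` the number of `l` with `c' (v, l) = a` is 0, 2 or 4 (as `j` is a
bijection, count over `j 0, j 1, j 2, j 3`). -/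
def RDE_stmt : Prop :=
  ∀ (V : Type) [DecidableEq V] (L : List V) (e : V × Fin 4 → V × Fin 4) (u v w : V)
    (i j k : Fin 4 → Fin 4) (c : V × Fin 4 → ℕ) (m : ℕ),
    TriC L e u v w i j k c m →
    EvCol (v :: L).toFinset (red e u w i k) (cred c v w j k)

/-- RDN: the used colours after the reduction are the old ones without `m`.
Proof: (⊆) the new colours at `v :: L` are `c (w, k 2) ≠ m` (COU; it is an old colour) and `c d`
for darts `d` of `v :: L` other than `(v, j 0)`, `(v, j 1)`, and these are not `m` by `col`.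
(⊇) let `a ≠ m` be the colour of a dart `d` of `u :: v :: w :: L`. If `d.1 = u`: `d` is `(u, i 2)`
or `(u, i 3)` (the other two have colour `m`) and `e d` is a dart at a vertex of `L` with the same
colour, `c' (e d) = c (e d) = c d = a`. The same for `d.1 = w`. If `d.1 = v`: `d` is `(v, j 2)` or
`(v, j 3)` and `c' d = c d`. If `d.1 ∈ L`: `c' d = c d`. -/
def RDN_stmt : Prop :=
  ∀ (V : Type) [DecidableEq V] (L : List V) (e : V × Fin 4 → V × Fin 4) (u v w : V)
    (i j k : Fin 4 → Fin 4) (c : V × Fin 4 → ℕ) (m : ℕ),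
    TriC L e u v w i j k c m →
    (dts (v :: L).toFinset).image (cred c v w j k) =
      ((dts (u :: v :: w :: L).toFinset).image c).erase m

/-- RDW: the set `W` after the reduction.
Proof: `Wt (v :: L) c' ⊆ ((Wt (u :: v :: w :: L) c).erase u).erase w` (for a vertex of `L` the
colours do not change; `v ∈ Wt` because `c (v, j 0) = m ≠ 0`), and `u`, `w` are two different
elements of `Wt`. Second part: a vertex `o` of `u :: v :: w :: L` not in `Wt` has only colour 0, so
it is not `u, v, w` (`m ≠ 0`), it is in `L` and `c' = c` there. Third part: `u, v, w` are three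
different elements of `Wt`. -/
def RDW_stmt : Prop :=
  ∀ (V : Type) [DecidableEq V] (L : List V) (e : V × Fin 4 → V × Fin 4) (u v w : V)
    (i j k : Fin 4 → Fin 4) (c : V × Fin 4 → ℕ) (m : ℕ),
    TriC L e u v w i j k c m → m ≠ 0 →
    (Wt (v :: L).toFinset (cred c v w j k)).card + 2 ≤ (Wt (u :: v :: w :: L).toFinset c).card ∧
    (Wt (u :: v :: w :: L).toFinset c ≠ (u :: v :: w :: L).toFinset →
      Wt (v :: L).toFinset (cred c v w j k) ≠ (v :: L).toFinset) ∧
    3 ≤ (Wt (u :: v :: w :: L).toFinset c).card

/-- RDH: the hypothesis is inherited.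
Proof: by RDN `0` is still used (`m ≠ 0`) and `nb' = nb - 1` (`m` is a used colour, `m ≠ 0`;
`erase` commutes). With `N = card of the old Wt`, `N' = card of the new Wt`, `s = |u :: v :: w ::
L| = l + 3`: by RDW `N' + 2 ≤ N`, `3 ≤ N`. If the old `Wt` is not everything: `N ≤ 2 nb`, so
`nb ≥ 2`, the new `Wt` is not everything and `N' ≤ 2 nb - 2 = 2 nb'`. If it is everything: `N = l +
3`, `N + 1 ≤ 2 nb`; `N' + 1 ≤ N - 1 ≤ 2 nb - 2`. -/
def RDH_stmt : Prop :=
  ∀ (V : Type) [DecidableEq V] (L : List V) (e : V × Fin 4 → V × Fin 4) (u v w : V)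
    (i j k : Fin 4 → Fin 4) (c : V × Fin 4 → ℕ) (m : ℕ),
    TriC L e u v w i j k c m → m ≠ 0 → Hyp (u :: v :: w :: L).toFinset c →
    Hyp (v :: L).toFinset (cred c v w j k)

/-! ## Part C: counting -/

/-- SIX: every used colour is the colour of at least six darts, in a special position.
Proof: let `d = (u, a)` have colour `m`; by evenness there is `b ≠ a` with `c (u, b) = m`. Put
`(v, p) = e (u, a)`, `(w, q) = e (u, b)`; `v ≠ u`, `w ≠ u`, `v ≠ w` (`Smp`), both in `S` (the
active darts are those of `S` and `e` of an active dart is active). By evenness at `v` and `w`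
there are `p' ≠ p` with `c (v, p') = m`, `q' ≠ q` with `c (w, q') = m`. The six darts `(u, a)`,
`(u, b)`, `(v, p)`, `(v, p')`, `(w, q)`, `(w, q')` are different. -/
def SIX_stmt : Prop :=
  ∀ (V : Type) [DecidableEq V] (S : Finset V) (e : V × Fin 4 → V × Fin 4)
    (c : V × Fin 4 → ℕ) (m : ℕ),
    Act (dts S) e → Smp S e → EvCol S e c → (∃ d ∈ dts S, c d = m) →
    (∃ (u v w : V) (a b p p' q q' : Fin 4), u ∈ S ∧ v ∈ S ∧ w ∈ S ∧ u ≠ v ∧ u ≠ w ∧ v ≠ w ∧
      a ≠ b ∧ p ≠ p' ∧ q ≠ q' ∧ e (u, a) = (v, p) ∧ e (u, b) = (w, q) ∧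
      c (u, a) = m ∧ c (u, b) = m ∧ c (v, p) = m ∧ c (v, p') = m ∧ c (w, q) = m ∧
      c (w, q') = m) ∧
    6 ≤ ((dts S).filter fun d => c d = m).card

/-- TRI: a colour class with at most seven darts is a triangle.
Proof: the number of darts of colour `m` is even (`e` restricted to them is an involution without
fixed points, `Finset.card_involution`-like; `e` preserves `dts S`), so at most 6. Take the six
darts of `hS` (SIX): these are all darts of colour `m`. `e (v, p')` has colour `m`, so it is one of
the six; it is not at `v` (`Smp`), not `(u, a)` (`e (u, a) = (v, p) ≠ (v, p')`), not `(u, b)`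
(`e (u, b) = (w, q)`), not `(w, q)` (`e (w, q) = (u, b)`), so `e (v, p') = (w, q')`. Choose
`i = ![a, b, ..]`, `j = ![p', p, ..]`, `k = ![q, q', ..]` as injective functions with the remaining
two values in any order (`(u, i 0) = (u, a) - (v, j 1) = (v, p)`, `(v, j 0) = (v, p') - (w, k 1) =
(w, q')`, `(w, k 0) = (w, q) - (u, i 1) = (u, b)`). The other strands from `u` go to active darts,
at vertices of `S`, different from `u` (no loop), `v`, `w` (no double strands), so at vertices of
`R`, where `L` is a permutation of `u :: v :: w :: R` (`List.perm_cons_erase` three times). -/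
def TRI_stmt : Prop :=
  ∀ (V : Type) [DecidableEq V] (L : List V) (e : V × Fin 4 → V × Fin 4)
    (c : V × Fin 4 → ℕ) (m : ℕ),
    L.Nodup → Act (dts L.toFinset) e → Smp L.toFinset e → EvCol L.toFinset e c →
    (∃ d ∈ dts L.toFinset, c d = m) →
    ((dts L.toFinset).filter fun d => c d = m).card ≤ 7 →
    ∃ (u v w : V) (R : List V) (i j k : Fin 4 → Fin 4),
      L.Perm (u :: v :: w :: R) ∧ TriC R e u v w i j k c m

/-- SHT: there is a short class.
Proof: otherwise each of the `nb S c` colours in `(image c).erase 0` has at least 8 darts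
(`card_eq_sum_card_image` for `c` on the darts of non-zero colour:
`8 * nb ≤ #{d ∈ dts S, c d ≠ 0}`). These darts lie in `dts (Wt S c)`, which has `4 |Wt|` elements
(`dts` is a product with `univ : Finset (Fin 4)`); so `8 nb ≤ 4 |Wt|`, and
`8 nb + 1 ≤ 4 |Wt|` if `Wt` has a dart of colour 0. In the first case of the hypothesis
`|Wt| + 1 ≤ 2 nb` by `Hyp`, in the second `|Wt| ≤ 2 nb`: contradiction. -/
def SHT_stmt : Prop :=
  ∀ (V : Type) [DecidableEq V] (S : Finset V) (c : V × Fin 4 → ℕ),
    Hyp S c → (Wt S c = S ∨ ∃ d ∈ dts S, d.1 ∈ Wt S c ∧ c d = 0) →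
    ∃ m, m ≠ 0 ∧ (∃ d ∈ dts S, c d = m) ∧ ((dts S).filter fun d => c d = m).card ≤ 7

/-- DEG: at a vertex of `W` the number of darts with non-zero colour is even and at most `|W| - 1`.
Proof: it is `4 - #{l : c (w, l) = 0}`, even by `EvCol`. For a dart `(w, l)` with non-zero colour
the dart `e (w, l)` is active and has the same colour, so its vertex is in `Wt S c`, it is not `w`
(no loop), and different `l` give different vertices (no double strands): the map
`l ↦ (e (w, l)).1` is injective into `(Wt S c).erase w`. -/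
def DEG_stmt : Prop :=
  ∀ (V : Type) [DecidableEq V] (S : Finset V) (e : V × Fin 4 → V × Fin 4)
    (c : V × Fin 4 → ℕ) (w : V),
    Act (dts S) e → Smp S e → EvCol S e c → w ∈ Wt S c →
    Even ((univ : Finset (Fin 4)).filter fun l => c (w, l) ≠ 0).card ∧
    ((univ : Finset (Fin 4)).filter fun l => c (w, l) ≠ 0).card + 1 ≤ (Wt S c).card

/-- BAS: the cases of five and six vertices do not occur.
Proof: let `N` = number of darts of `dts S` with non-zero colour `= ∑ w ∈ Wt, (number at w)`,
`x = |Wt|`, `n = |S|`. By SIX every used colour has at least 6 darts: `6 nb ≤ N` and, as colour 0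
is used, `6 nb + 6 ≤ 4 n` (and `N + 6 ≤ 4 n`). By DEG every summand is even, at most `x - 1` and
at most 4. `x ≤ 4`: the summands are at most 0, 0, 2, 2 for `x = 1, 2, 3, 4`, so
`6 nb ≤ N ≤ 0, 0, 6, 8`, but `x ≤ 2 nb` gives `nb ≥ 1, 1, 2, 2`: contradiction (`x ≥ 1` because
`nb ≥ 1`). `x = n`: `n + 1 ≤ 2 nb`, so `nb ≥ 3` (`n = 5`): `24 ≤ 20`, or `nb ≥ 4` (`n = 6`):
`30 ≤ 24`. `x = 5`, `n = 6`: let `o` be the vertex of `S` not in `Wt`. Its four darts (colour 0)
end at four different vertices of `S` other than `o`, i.e. of `Wt`; each of these has a dart of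
colour 0, so by evenness at most two darts of non-zero colour; `N ≤ 4 * 2 + 4 = 12 < 18 ≤ 6 nb`
(`nb ≥ 3`). -/
def BAS_stmt : Prop :=
  ∀ (V : Type) [DecidableEq V] (S : Finset V) (e : V × Fin 4 → V × Fin 4)
    (c : V × Fin 4 → ℕ),
    (S.card = 5 ∨ S.card = 6) → Act (dts S) e → Smp S e → EvCol S e c → Hyp S c → False

/-- MAI: the main proposition.
Proof: strong induction on `L.length`. (`Z (-4)` and all hypotheses are invariant under
permutations of `L` by `fJZ2`.) Let `S = L.toFinset`.
(1) there is a loop `e (u, i) = (u, j)` at `u ∈ S` (`j ≠ i` as the dart is active): move `u` to the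
front, LOP. (2) no loops, but `(e (u, i)).1 = (e (u, i')).1 = w`, `i ≠ i'`: then `w ≠ u` is in `S`,
`e (u, i) = (w, j)`, `e (u, i') = (w, j')`, `j ≠ j'`; move `u, w` to the front, `fD4` (the rest has
at least 3 elements). So `Smp S e`. (3) `Wt S c ≠ S` and no dart of `Wt S c` has colour 0: `L` is a
permutation of `L1 ++ L2`, `L1 = (Wt S c).toList`, `L2 = (S \ Wt S c).toList`, both non-empty
(`nb ≥ 1`); for `d ∈ dts (Wt S c)`: `c d ≠ 0`, so `c (e d) ≠ 0` and `e d` is active, `e d ∈ dts (Wt
S c)`: SPL. (4) otherwise SHT gives a colour `m ≠ 0` with at most 7 darts. If `L.length ≤ 6`: BAS.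
If `L.length ≥ 7`: TRI gives `u v w R i j k`; F5 (`R.length ≥ 4`), and for each of the three terms
(by ROT the same argument): `v :: R` has `L.length - 2 ≥ 5` elements, it has no duplicates, RDA,
RDE, RDH and the induction hypothesis give divisibility by 32. -/
def MAI_stmt : Prop :=
  ∀ (V : Type) [Fintype V] [DecidableEq V] (L : List V) (e : V × Fin 4 → V × Fin 4)
    (c : V × Fin 4 → ℕ),
    L.Nodup → 5 ≤ L.length → Act (dts L.toFinset) e → EvCol L.toFinset e c →
    Hyp L.toFinset c → 32 ∣ Z (-4) L e

/-! ## Part G: simple graphs -/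

/-- LKC: from a family of even subgraphs to a colouring.
Proof: `c d = i + 1` if `(C i).Adj d.1 (e d).1` for an `i` (unique by `disj`; use `Classical`), and
`c d = 0` otherwise. `c (e d) = c d` because `C i` is symmetric and `e (e d) = d`. For `k = i + 1`
the map `l ↦ (e (u, l)).1` is a bijection from `{l : c (u, l) = k}` to the neighbours of `u` in
`C i` (`C i ≤ G`), so the number is even; for `k > b` it is 0; for `k = 0`: the four numbers `l` are
distributed over the colours, the sum over all colours is 4, the others are even. Colour 0 is used: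
an edge of `G` not covered. `nb = b`: the colours used are 0 and `1, ..., b` (every `C i` has an
edge), `Wt` is clear. -/
def LKC_stmt : Prop :=
  ∀ (V : Type) [Fintype V] [DecidableEq V] (G : SimpleGraph V) (e : V × Fin 4 → V × Fin 4)
    (b : ℕ) (C : Fin b → SimpleGraph V),
    (∀ d, e (e d) = d) → (∀ u i, G.Adj u (e (u, i)).1) →
    (∀ u w, G.Adj u w → ∃ i, (e (u, i)).1 = w) →
    (∀ u i j, (e (u, i)).1 = (e (u, j)).1 → i = j) →
    EvenFamily G b C → ¬ Covers G C →
    ∃ c : V × Fin 4 → ℕ, EvCol univ e c ∧ 0 ∈ (dts (univ : Finset V)).image c ∧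
      nb univ c = b ∧ ∀ v, v ∈ Wt univ c ↔ v ∈ span C

/-- FNA: (a), (b), (c).
Proof: take `e` from `E3` (needs `G.IsRegularOfDegree 4`, see `CT.near` in CT/Main.lean for the
conversion) and suppose some conclusion fails. It is enough to find a family with
`EvenFamily G b C`, `1 ≤ b`, `¬ Covers G C` and `card (span C) ≤ 2 b`, and `card V + 1 ≤ 2 b` if
`span C = univ`: then LKC gives `c` with `Hyp univ c`, MAI (for `L = (univ : Finset V).toList`)
gives `32 ∣ Z (-4) L e`, and `c2_of_Z` gives `C2Is .. 0`: contradiction. (a) `span C ≠ univ` and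
`card (span C) ≤ 2 b`: `¬ Covers`, because a vertex outside the span has four neighbours in `G`.
(b) `¬ Covers`, `card V ≤ 2 b - 1`: clear (if `span C ≠ univ` then `card (span C) < card V`).
(c) if `¬ Covers`: from (b). If `Covers`: write `b = b' + 1`; if `b' = 0` the inequality is clear;
otherwise apply (b) to `fun i : Fin b' => C i.castSucc`, which does not cover the edges of
`C (Fin.last b')`. -/
def FNA_stmt : Prop :=
  ∀ (V : Type) [Fintype V] [DecidableEq V] (G : SimpleGraph V) (v : V),
    FourRegular G → 6 ≤ Fintype.card V → ¬ C2Is (decompletion G v) (ZMod 2) 0 →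
    ∀ (b : ℕ) (C : Fin b → SimpleGraph V), EvenFamily G b C → 1 ≤ b →
      (span C ≠ Set.univ → 2 * b + 1 ≤ Nat.card (span C)) ∧
      (¬ Covers G C → 2 * b ≤ Fintype.card V) ∧ 2 * b ≤ Fintype.card V + 2

/-! ## Part P: planar graphs -/

/-- PLE: the faces of one colour.
Proof: for a face `f` of colour `x` let `C_f` be the graph with the edges `{d.fst, d.snd}`,
`R.face d = f`. (ne) a face has a dart. (le) clear. (disj) if `{a, b}` is an edge of `C_f` and
`C_g`: darts `d`, `d'` with `face d = f`, `face d' = g`, and `d' = d` (then `f = g`) or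
`d' = d.symm`, impossible since `κ f = κ g = x` contradicts `Proper`. (even) the neighbours of `v`
are the `d.snd` for `d ∈ A = {d : face d = f, d.fst = v}` and the `d.fst` for
`d ∈ B = {d : face d = f, d.snd = v}`; a dart is determined by its two vertices, and a common
value would give `d' = d.symm` with `face d = face d' = f`, impossible; so the number is
`|A| + |B|`. `R.phi` maps `B` bijectively onto `A`: `(phi d).fst = (rot d.symm).fst = d.symm.fst =
d.snd` and `face (phi d) = face d` (`Equiv.Perm.SameCycle`). So it is `2 |A|`. (Covers) for an edge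
with dart `d` one of `κ (face d)`, `κ (face d.symm)` is `x`. Enumerate the finite type
`{f // κ f = x}` by `Fin (R.num κ x)` (`Finite.equivFin`). -/
def PLE_stmt : Prop :=
  ∀ (V : Type) [Fintype V] (G : SimpleGraph V) (R : Rotation G) (κ : R.Face → Bool) (x : Bool),
    R.Proper κ → ∃ C : Fin (R.num κ x) → SimpleGraph V,
      EvenFamily G (R.num κ x) C ∧ Covers G C

/-- PLK: functions constant on the faces and on the edges are constant.
Proof: `g (rot d) = g (rot (d.symm).symm) = g (phi d.symm) = g d.symm = g d`, so by `trans` `g` is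
constant on the darts with a given first vertex; let `h v` be this value (every vertex of a dart
has one). For an edge `v w`: `h v = g d = g d.symm = h w`. By connectedness (induction on a walk)
all values agree. -/
def PLK_stmt : Prop :=
  ∀ (V : Type) (G : SimpleGraph V) (R : Rotation G) (g : G.Dart → ZMod 2),
    G.Preconnected → (∀ d, g (R.phi d) = g d) → (∀ d, g d.symm = g d) → ∀ d d', g d = g d'

open Classical in
/-- PLD: the number of elements of the cycle space is `2 ^ (|E| - |V| + 1)`.
Proof: the functions `x` with `x d.symm = x d` are the functions on the edges (`Dart.edge`),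
`2 ^ |E|` of them. The additive map `x ↦ (v ↦ ∑ d with d.fst = v, x d)` has image exactly
`{φ : V → ZMod 2 | ∑ v, φ v = 0}`: the sum over all `v` is the sum over all darts, and each edge
occurs twice; conversely the image is a subgroup which contains `δ_a + δ_b` for adjacent `a`, `b`
(the function of this edge), hence for all `a`, `b` by connectedness, and these generate. The
image has `2 ^ (|V| - 1)` elements (kernel of the sum), and the number of elements of the kernel
times this is `2 ^ |E|`. (Or with `Matrix.rank_transpose` and the incidence matrix.) -/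
def PLD_stmt : Prop :=
  ∀ (V : Type) [Fintype V] (G : SimpleGraph V), G.Connected →
    Nat.card {x : G.Dart → ZMod 2 // (∀ d, x d.symm = x d) ∧
      ∀ v, ∑ d ∈ (univ : Finset G.Dart).filter (fun d => d.fst = v), x d = 0} *
      2 ^ Fintype.card V = 2 ^ Nat.card G.edgeSet * 2

/-- PLC: faces of a spherical rotation system with even degrees can be 2-coloured.
Proof: let `A = {g : G.Dart → ZMod 2 | g (phi d) = g d}`, it is in bijection with the functions on
the faces, `|A| = 2 ^ |F|`. Let `B` be the set of PLD. `D g d = g d + g d.symm` maps `A` to `B`: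
symmetric, and at `v`: `∑ g d.symm = ∑ g (phi d.symm) = ∑ g (rot d) = ∑ g d` (`rot` permutes the
darts with first vertex `v`), so the sum is `2 ∑ g d = 0`. `D` is additive, its kernel consists of
the two constants (PLK; there is a dart), so the image has `2 ^ |F| / 2` elements, and by PLD and
`Spherical`: `|B| * 2 ^ |V| = 2 ^ (|E| + 1)`, `|F| = |E| + 2 - |V|`, so `|B| = 2 ^ (|F| - 1)` = the
number of elements of the image: `D` is onto `B`. The function 1 is in `B` (every vertex is the
first vertex of exactly 4 darts, `FourRegular`), so `g d + g d.symm = 1` for some `g ∈ A`; put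
`κ f = true` iff `g = 1` on `f`. -/
def PLC_stmt : Prop :=
  ∀ (V : Type) [Fintype V] (G : SimpleGraph V) (R : Rotation G),
    G.Connected → FourRegular G → R.Spherical → ∃ κ : R.Face → Bool, R.Proper κ

/-- FND: (d), (e).
Proof: (d) if `R.num κ x = 0` it is clear, otherwise PLE and the third part of FNA. (e)
`Nat.card G.edgeSet = 2 |V|` (sum of the degrees), so `Nat.card R.Face = |V| + 2 = num true + num
false`; with (d) both are equal to `(|V| + 2) / 2`; PLC. -/
def FND_stmt : Prop :=
  ∀ (V : Type) [Fintype V] [DecidableEq V] (G : SimpleGraph V) (v : V),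
    FourRegular G → 6 ≤ Fintype.card V → ¬ C2Is (decompletion G v) (ZMod 2) 0 →
    ∀ R : Rotation G,
      (∀ κ : R.Face → Bool, R.Proper κ → ∀ x, 2 * R.num κ x ≤ Fintype.card V + 2) ∧
      (G.Connected → R.Spherical → Even (Fintype.card V) ∧ (∃ κ : R.Face → Bool, R.Proper κ) ∧
        ∀ κ : R.Face → Bool, R.Proper κ → ∀ x, 2 * R.num κ x = Fintype.card V + 2)

end Pool.Agent.CY
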