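import Pool.Agent.helper56.CT.Problem

/-!
# MP_45d809: graph definitions for hand-in EdgeDisjointCycles
-/

namespace Pool.Agent.CY
open Finset CT

/-! ### Families of even subgraphs -/

section
variable {V : Type}

/-- `C 0, ..., C (b-1)` are pairwise edge-disjoint non-empty subgraphs of `G`, all degrees of which
are even. -/
structure EvenFamily (G : SimpleGraph V) (b : ℕ) (C : Fin b → SimpleGraph V) : Prop where
  le : ∀ i, C i ≤ G
  ne : ∀ i, C i ≠ ⊥
  even : ∀ i v, Even (Nat.card {w // (C i).Adj v w})
  disj : ∀ i j, i ≠ j → ∀ u w, (C i).Adj u w → ¬ (C j).Adj u w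

/-- The set of vertices met by the family. -/
def span {b : ℕ} (C : Fin b → SimpleGraph V) : Set V := {v | ∃ i w, (C i).Adj v w}

/-- Every edge of `G` lies in a member of the family. -/
def Covers {b : ℕ} (G : SimpleGraph V) (C : Fin b → SimpleGraph V) : Prop :=
  ∀ u w, G.Adj u w → ∃ i, (C i).Adj u w

/-! ### Embeddings in orientable surfaces: rotation systems -/

/-- A rotation system of `G`: a permutation of the darts (oriented edges) which keeps the first
vertex and permutes the darts at every vertex cyclically. -/
structure Rotation (G : SimpleGraph V) where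
  rot : Equiv.Perm G.Dart
  fst : ∀ d, (rot d).fst = d.fst
  trans : ∀ d d' : G.Dart, d.fst = d'.fst → ∃ k : ℕ, (rot ^ k) d = d'

variable {G : SimpleGraph V}

/-- The reversal of the darts. -/
def rev (G : SimpleGraph V) : Equiv.Perm G.Dart :=
  ⟨SimpleGraph.Dart.symm, SimpleGraph.Dart.symm, SimpleGraph.Dart.symm_symm,
    SimpleGraph.Dart.symm_symm⟩

/-- The face permutation: a dart is followed by the next one on the boundary of its face. -/
def Rotation.phi (R : Rotation G) : Equiv.Perm G.Dart := (rev G).trans R.rot

/-- The faces: the cycles of the face permutation. -/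
def Rotation.Face (R : Rotation G) : Type := Quotient (Equiv.Perm.SameCycle.setoid R.phi)

/-- The face to which a dart belongs. -/
def Rotation.face (R : Rotation G) (d : G.Dart) : R.Face :=
  Quotient.mk (Equiv.Perm.SameCycle.setoid R.phi) d

/-- `κ` is a proper 2-colouring of the faces: the two faces at every edge have different colours
(in particular they are different). -/
def Rotation.Proper (R : Rotation G) (κ : R.Face → Bool) : Prop :=
  ∀ d : G.Dart, κ (R.face d.symm) ≠ κ (R.face d)

/-- The number of faces of colour `x`. -/
noncomputable def Rotation.num (R : Rotation G) (κ : R.Face → Bool) (x : Bool) : ℕ :=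
  Nat.card {f : R.Face // κ f = x}

/-- Genus 0: `|V| + |F| = |E| + 2`. -/
def Rotation.Spherical (R : Rotation G) : Prop :=
  Nat.card V + Nat.card R.Face = Nat.card G.edgeSet + 2

end
end Pool.Agent.CY
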